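import Pool.Agent.H4.Loop.Reg

set_option autoImplicit false

/-!
A nontrivial abelian normal subgroup of `G` forces the loop to be a group.
-/

namespace ALoop

open Equiv

theorem lie_lemma {A : Type*} [AddCommGroup A] (b : A → A → A)
    (b1 : ∀ x y z, b (x + y) z = b x z + b y z) (b2 : ∀ x y z, b x (y + z) = b x y + b x z)
    (balt : ∀ x, b x x = 0) (h2 : ∀ a : A, a + a = 0 → a = 0)
    (hc : ∀ x y z, b x (b y z) = b (b x y) (b x z) + b (b x y) z + b y (b x z)) :
    ∀ x y z w, b (b x y) (b z w) = 0 := by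
  have z1 : ∀ z, b 0 z = 0 := by
    intro z
    have := b1 0 0 z
    rw [add_zero] at this
    exact left_eq_add.1 this
  have z2 : ∀ z, b z 0 = 0 := by
    intro z
    have := b2 z 0 0
    rw [add_zero] at this
    exact left_eq_add.1 this
  have n1 : ∀ x z, b (-x) z = - b x z := by
    intro x z
    have := b1 x (-x) z
    rw [add_neg_cancel, z1] at this
    exact (neg_eq_of_add_eq_zero_right this.symm).symm
  have n2 : ∀ x z, b x (-z) = - b x z := by
    intro x z
    have := b2 x z (-z)
    rw [add_neg_cancel, z2] at this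
    exact (neg_eq_of_add_eq_zero_right this.symm).symm
  have anti : ∀ x y, b x y = - b y x := by
    intro x y
    have := balt (x + y)
    rw [b1, b2, b2, balt, balt, zero_add, add_zero] at this
    exact eq_neg_of_add_eq_zero_left this
  have d1 : ∀ x y z, b (b x y) (b x z) = 0 := by
    intro x y z
    apply h2
    have e1 := hc x y z
    have e2 := hc (-x) y z
    simp only [n1, n2, neg_neg] at e2
    have e3 := congrArg₂ (· + ·) e1 e2
    simp only [add_neg_cancel] at e3
    rw [e3]; abel
  have d2 : ∀ x y w z, b (b x y) (b w z) = - b (b w y) (b x z) := by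
    intro x y w z
    have := d1 (x + w) y z
    simp only [b1, b2, d1] at this
    have h3 : b (b x y) (b w z) + b (b w y) (b x z) = 0 := by
      rw [← this]; abel
    exact eq_neg_of_add_eq_zero_left h3
  have s12 : ∀ x y w z, b (b x y) (b w z) = - b (b y x) (b w z) := by
    intro x y w z
    rw [anti x y, n1]
  have s34 : ∀ x y w z, b (b x y) (b w z) = - b (b x y) (b z w) := by
    intro x y w z
    rw [anti w z, n2]
  intro x y w z
  apply h2
  -- `f x y w z = f w z x y`
  have e1 : b (b x y) (b w z) = b (b w z) (b x y) := by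
    calc b (b x y) (b w z) = - b (b w y) (b x z) := d2 x y w z
      _ = b (b y w) (b x z) := by rw [s12 w y, neg_neg]
      _ = - b (b y w) (b z x) := s34 y w x z
      _ = b (b z w) (b y x) := by rw [d2 y w z x, neg_neg]
      _ = - b (b w z) (b y x) := s12 z w y x
      _ = b (b w z) (b x y) := by rw [s34 w z y x, neg_neg]
  calc b (b x y) (b w z) + b (b x y) (b w z) = b (b x y) (b w z) + b (b w z) (b x y) := by
        rw [← e1]
    _ = 0 := by rw [anti (b x y) (b w z)]; abel

variable {Q : Type*} {G : Subgroup (Perm Q)} {L : Q → Perm Q} {J : Perm Q} {e : Q}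
  {N : Subgroup (Perm Q)}

theorem abelian_reg (h : AL G L J e) (hN : Nm G N) (hne : N ≠ ⊥)
    (hab : ∀ a ∈ N, ∀ b ∈ N, a * b = b * a) : ∀ n ∈ N, n e = e → n = 1 := by
  intro n hn hne'
  ext q
  obtain ⟨m, hm, rfl⟩ := h.trans hN hne e q
  have := congrArg (fun p : Perm Q => p e) (hab n hn m hm)
  simp only [Perm.mul_apply] at this
  rw [this, hne', Perm.one_apply]

/-- `J` inverts an abelian normal subgroup -/
theorem abelian_J (h : AL G L J e) (hNG : N ≤ G) (hN : Nm G N) (hne : N ≠ ⊥)
    (hab : ∀ a ∈ N, ∀ b ∈ N, a * b = b * a) :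
    (∀ n ∈ N, J * n * J = n⁻¹) ∧ (∀ n ∈ N, n * n = 1 → n = 1) := by
  have hreg := abelian_reg h hN hne hab
  -- `J` normalises `N`
  have hJN : ∀ n ∈ N, J * n * J ∈ N := by
    let K : Subgroup (Perm Q) :=
      { carrier := {n | n ∈ N ∧ J * n * J ∈ N}
        mul_mem' := by
          rintro a b ⟨ha, ha'⟩ ⟨hb, hb'⟩
          exact ⟨N.mul_mem ha hb, by rw [h.Jmul]; exact N.mul_mem ha' hb'⟩
        one_mem' := ⟨N.one_mem, by rw [mul_one, h.JJ1]; exact N.one_mem⟩
        inv_mem' := by
          rintro a ⟨ha, ha'⟩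
          exact ⟨N.inv_mem ha, by rw [← h.Jmulinv]; exact N.inv_mem ha'⟩ }
    have hKG : Nm G K := by
      rintro g hg n ⟨hn, hn'⟩
      refine ⟨hN g hg n hn, ?_⟩
      have e1 : J * (g * n * g⁻¹) * J = (J * g * J) * (J * n * J) * (J * g * J)⁻¹ := by
        rw [h.Jmul, h.Jmul, h.Jmulinv]
      rw [e1]
      exact hN _ (h.JG g hg) _ hn'
    by_cases hK : K = ⊥
    · -- then `N` and `N^J` commute, so `N^J ≤ N`
      have hcent : ∀ c ∈ G, (∀ n ∈ N, c * n = n * c) → c ∈ N := by
        intro c hc hcn
        obtain ⟨m, hm, hme⟩ := h.trans hN hne e (c e)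
        have : m⁻¹ * c = 1 := by
          ext q
          obtain ⟨n, hn, rfl⟩ := h.trans hN hne e q
          have h1 := congrArg (fun p : Perm Q => p e) (hcn n hn)
          have h2 := congrArg (fun p : Perm Q => p e) (hab m⁻¹ (N.inv_mem hm) n hn)
          simp only [Perm.mul_apply] at h1 h2
          have h3 : m⁻¹ (c e) = e := by rw [Perm.inv_eq_iff_eq, hme]
          rw [Perm.mul_apply, h1, Perm.one_apply, ← hme]
          have h4 := congrArg (fun p : Perm Q => p (m e)) (hab m⁻¹ (N.inv_mem hm) n hn)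
          simp only [Perm.mul_apply] at h4
          rw [h4, hme, h3]
        rw [← inv_mul_eq_one.1 this]; exact hm
      intro n hn
      apply hcent _ (h.JG n (hNG hn))
      intro m hm
      -- commutator of `m` and `J n J`
      have hc : m * (J * n * J) * m⁻¹ * (J * n * J)⁻¹ ∈ K := by
        constructor
        · have h1 : (J * n * J) * m⁻¹ * (J * n * J)⁻¹ ∈ N :=
            hN _ (h.JG n (hNG hn)) _ (N.inv_mem hm)
          have h2 := N.mul_mem hm h1
          have e1 : m * ((J * n * J) * m⁻¹ * (J * n * J)⁻¹) =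
            m * (J * n * J) * m⁻¹ * (J * n * J)⁻¹ := by group
          rwa [e1] at h2
        · have h1 : (J * m * J) * n * (J * m * J)⁻¹ ∈ N := hN _ (h.JG m (hNG hm)) _ hn
          have h2 := N.mul_mem h1 (N.inv_mem hn)
          have e1 : J * (m * (J * n * J) * m⁻¹ * (J * n * J)⁻¹) * J =
              (J * m * J) * n * (J * m * J)⁻¹ * n⁻¹ := by
            rw [h.Jmul, h.Jmul, h.Jmul, h.JconjJ, h.Jmulinv, h.Jmulinv, h.JconjJ]
          rwa [e1]
      rw [hK, Subgroup.mem_bot] at hc
      calc (J * n * J) * m = (m * (J * n * J) * m⁻¹ * (J * n * J)⁻¹)⁻¹ * (m * (J * n * J)) := by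
            group
        _ = m * (J * n * J) := by rw [hc, inv_one, one_mul]
    · intro n hn
      have hKN : K ≤ N := fun a ha => ha.1
      exact (reg_le h hreg hKG hK hKN hn).2
  -- the fixed points of `J` in `N`
  let C : Subgroup (Perm Q) :=
    { carrier := {n | n ∈ N ∧ J * n * J = n}
      mul_mem' := by
        rintro a b ⟨ha, ha'⟩ ⟨hb, hb'⟩
        exact ⟨N.mul_mem ha hb, by rw [h.Jmul, ha', hb']⟩
      one_mem' := ⟨N.one_mem, by rw [mul_one, h.JJ1]⟩
      inv_mem' := by
        rintro a ⟨ha, ha'⟩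
        exact ⟨N.inv_mem ha, by rw [← h.Jmulinv, ha']⟩ }
  have hCG : Nm G C := by
    apply nm_split h hNG hN hne
    · rintro n hn c ⟨hc, hc'⟩
      have : n * c * n⁻¹ = c := by rw [hab n hn c hc]; group
      rw [this]; exact ⟨hc, hc'⟩
    · rintro u hu hue c ⟨hc, hc'⟩
      refine ⟨hN u hu c hc, ?_⟩
      have hJu := h.comJ u hu hue
      have e1 : J * u * J = u := by rw [← hJu, mul_assoc, h.JJ1, mul_one]
      rw [h.Jmul, h.Jmul, ← h.Jmulinv, e1, hc']
  have hC : C = ⊥ := by
    by_contra hC
    have hCN : C ≤ N := fun a ha => ha.1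
    have h1 := reg_le h hreg hCG hC hCN
    apply h.Jne
    ext q
    obtain ⟨n, hn, rfl⟩ := h.trans hN hne e q
    have h2 := (h1 hn).2
    have h3 := congrArg (fun p : Perm Q => p e) h2
    simp only [Perm.mul_apply] at h3
    rw [h.Je] at h3
    rw [h3, Perm.one_apply]
  have hCmem : ∀ n ∈ N, J * n * J = n → n = 1 := by
    intro n hn hn'
    have : n ∈ C := ⟨hn, hn'⟩
    rwa [hC, Subgroup.mem_bot] at this
  have hinv : ∀ n ∈ N, J * n * J = n⁻¹ := by
    intro n hn
    have h1 : n * (J * n * J) = 1 := by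
      apply hCmem _ (N.mul_mem hn (hJN n hn))
      rw [h.Jmul, h.JconjJ, hab _ (hJN n hn) n hn]
    exact (inv_eq_of_mul_eq_one_right h1).symm
  refine ⟨hinv, ?_⟩
  intro n hn hnn
  apply hCmem n hn
  rw [hinv n hn]
  exact inv_eq_of_mul_eq_one_left hnn

theorem abelian_case (h : AL G L J e) (hNG : N ≤ G) (hN : Nm G N) (hne : N ≠ ⊥)
    (hab : ∀ a ∈ N, ∀ b ∈ N, a * b = b * a) : Assoc L := by
  have hreg := abelian_reg h hN hne hab
  obtain ⟨hJ, h2⟩ := abelian_J h hNG hN hne hab
  letI : CommGroup N := { (inferInstance : Group N) with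
    mul_comm := fun a b => Subtype.ext (hab a a.2 b b.2) }
  -- the bimultiplicative map
  let B : Perm Q → Perm Q → Perm Q := fun x y => L (x e) * y * (L (x e))⁻¹ * y⁻¹
  have hBmem : ∀ x y, y ∈ N → B x y ∈ N := fun x y hy =>
    N.mul_mem (hN _ (h.memL _) y hy) (N.inv_mem hy)
  have hBop : ∀ x y, y ∈ N → x ∈ N → op L e x y = B x y * y * x := by
    intro x y hy hx
    simp only [op, B]; group
  let b : Additive N → Additive N → Additive N := fun x y =>
    Additive.ofMul ⟨B (Additive.toMul x).1 (Additive.toMul y).1,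
      hBmem _ _ (Additive.toMul y).2⟩
  have b2 : ∀ x y z, b x (y + z) = b x y + b x z := by
    intro x y z
    apply Additive.toMul.injective
    apply Subtype.ext
    change B x.toMul.1 (y.toMul.1 * z.toMul.1) = B x.toMul.1 y.toMul.1 * B x.toMul.1 z.toMul.1
    have hx := x.toMul.2
    have hy := y.toMul.2
    have hz := z.toMul.2
    generalize (x.toMul.1 : Perm Q) = x' at *
    generalize (y.toMul.1 : Perm Q) = y' at *
    generalize (z.toMul.1 : Perm Q) = z' at *
    have h3 := hab _ (N.inv_mem hy) _ (hBmem x' z' hz)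
    calc B x' (y' * z') = (L (x' e) * y' * (L (x' e))⁻¹) * (B x' z' * y'⁻¹) := by
          simp only [B]; group
      _ = B x' y' * B x' z' := by rw [← h3]; simp only [B]; group
  have b1 : ∀ x y z, b (x + y) z = b x z + b y z := by
    intro x y z
    apply Additive.toMul.injective
    apply Subtype.ext
    change B (x.toMul.1 * y.toMul.1) z.toMul.1 = B x.toMul.1 z.toMul.1 * B y.toMul.1 z.toMul.1
    have hx := x.toMul.2
    have hy := y.toMul.2
    have hz := z.toMul.2
    generalize (x.toMul.1 : Perm Q) = x' at *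
    generalize (y.toMul.1 : Perm Q) = y' at *
    generalize (z.toMul.1 : Perm Q) = z' at *
    have h3 := op_F2 h hN hreg hx hy hz
    rw [hBop _ _ hz (N.mul_mem hx hy), hBop _ _ hz hx, hBop _ _ hz hy] at h3
    have c1 := hab _ (N.mul_mem hx (N.inv_mem hz)) _ (hBmem y' z' hz)
    have c2 := hab x' hx z' hz
    have h4 : B x' z' * z' * x' * z'⁻¹ * (B y' z' * z' * y') =
        B x' z' * B y' z' * z' * (x' * y') := by
      calc B x' z' * z' * x' * z'⁻¹ * (B y' z' * z' * y')
          = B x' z' * z' * ((x' * z'⁻¹) * B y' z') * z' * y' := by group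
        _ = B x' z' * (z' * B y' z') * x' * y' := by rw [c1]; group
        _ = B x' z' * B y' z' * z' * (x' * y') := by rw [hab z' hz _ (hBmem y' z' hz)]; group
    rw [h4] at h3
    have h5 : B (x' * y') z' * (z' * (x' * y')) = B x' z' * B y' z' * (z' * (x' * y')) := by
      rw [← mul_assoc, ← mul_assoc (B x' z' * B y' z')]; exact h3
    exact mul_right_cancel h5
  have hBinv : ∀ x ∈ N, B x x⁻¹ = 1 := by
    intro x hx
    have h3 : op L e x x⁻¹ = 1 := by
      apply reg_eq hreg (op_mem h hN hx (N.inv_mem hx)) N.one_mem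
      rw [op_e h, Perm.one_apply]
      have h4 : x⁻¹ e = J (x e) := by
        rw [← hJ x hx, Perm.mul_apply, Perm.mul_apply, h.Je]
      rw [h4, h.LJ]
    rw [hBop _ _ (N.inv_mem hx) hx] at h3
    simpa using h3
  have balt : ∀ x, b x x = 0 := by
    intro x
    have h3 : b x (-x) = 0 := by
      apply Additive.toMul.injective
      apply Subtype.ext
      exact hBinv _ x.toMul.2
    have h4 := b2 x x (-x)
    rw [add_neg_cancel, h3, add_zero] at h4
    rw [← h4]
    have h5 := b2 x 0 0
    rw [add_zero] at h5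
    exact left_eq_add.1 h5
  have h2' : ∀ a : Additive N, a + a = 0 → a = 0 := by
    intro a ha
    apply Additive.toMul.injective
    apply Subtype.ext
    apply h2 _ a.toMul.2
    have := congrArg (fun z : Additive N => (z.toMul.1 : Perm Q)) ha
    exact this
  have hBequi : ∀ u ∈ G, u e = e → ∀ x y, u * B x y * u⁻¹ = B (u * x * u⁻¹) (u * y * u⁻¹) := by
    intro u hu hue x y
    have h1 : (u * x * u⁻¹) e = u (x e) := by
      have : u⁻¹ e = e := by rw [Perm.inv_eq_iff_eq, hue]
      rw [Perm.mul_apply, Perm.mul_apply, this]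
    simp only [B]
    rw [h1, ← h.equi u hu hue (x e)]
    group
  have hc : ∀ x y z, b x (b y z) = b (b x y) (b x z) + b (b x y) z + b y (b x z) := by
    -- multiplicative statement for conjugation by `u = x⁻¹ L_x`
    have key : ∀ x y z : Additive N, b (b x y + y) (b x z + z) = b x (b y z) + b y z := by
      intro x y z
      apply Additive.toMul.injective
      apply Subtype.ext
      change B (B x.toMul.1 y.toMul.1 * y.toMul.1) (B x.toMul.1 z.toMul.1 * z.toMul.1) =
        B x.toMul.1 (B y.toMul.1 z.toMul.1) * B y.toMul.1 z.toMul.1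
      have hx := x.toMul.2
      have hy := y.toMul.2
      have hz := z.toMul.2
      generalize (x.toMul.1 : Perm Q) = x' at *
      generalize (y.toMul.1 : Perm Q) = y' at *
      generalize (z.toMul.1 : Perm Q) = z' at *
      have hu : x'⁻¹ * L (x' e) ∈ G := G.mul_mem (G.inv_mem (hNG hx)) (h.memL _)
      have hue : (x'⁻¹ * L (x' e)) e = e := by
        rw [Perm.mul_apply, h.Le, Perm.inv_eq_iff_eq]
      have hconj : ∀ w ∈ N, (x'⁻¹ * L (x' e)) * w * (x'⁻¹ * L (x' e))⁻¹ = B x' w * w := by
        intro w hw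
        have h3 : L (x' e) * w * (L (x' e))⁻¹ ∈ N := hN _ (h.memL _) w hw
        have h4 := hab _ (N.inv_mem hx) _ h3
        calc (x'⁻¹ * L (x' e)) * w * (x'⁻¹ * L (x' e))⁻¹ =
            x'⁻¹ * (L (x' e) * w * (L (x' e))⁻¹) * x' := by group
          _ = L (x' e) * w * (L (x' e))⁻¹ := by rw [h4]; group
          _ = B x' w * w := by simp only [B]; group
      have h5 := hBequi _ hu hue y' z'
      rw [hconj y' hy, hconj z' hz, hconj _ (hBmem y' z' hz)] at h5
      exact h5.symm
    intro x y z
    have h3 := key x y z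
    rw [b1, b2, b2] at h3
    have h4 : b (b x y) (b x z) + b (b x y) z + (b y (b x z) + b y z) =
        (b (b x y) (b x z) + b (b x y) z + b y (b x z)) + b y z := by abel
    rw [h4] at h3
    exact (add_right_cancel h3).symm
  have hlie := lie_lemma b b1 b2 balt h2' hc
  -- the subgroup generated by the values of `B`
  set SD : Set (Perm Q) := {c | ∃ x ∈ N, ∃ y ∈ N, c = B x y} with hSD
  have hDN : Subgroup.closure SD ≤ N := by
    rw [Subgroup.closure_le]
    rintro c ⟨x, hx, y, hy, rfl⟩
    exact hBmem x y hy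
  have hDG : Nm G (Subgroup.closure SD) := by
    apply nm_split h hNG hN hne
    · intro n hn m hm
      have : n * m * n⁻¹ = m := by rw [hab n hn m (hDN hm)]; group
      rw [this]; exact hm
    · intro u hu hue
      apply closure_conj
      rintro c ⟨x, hx, y, hy, rfl⟩
      rw [hBequi u hu hue]
      exact Subgroup.subset_closure ⟨_, hN u hu x hx, _, hN u hu y hy, rfl⟩
  by_cases hD : Subgroup.closure SD = ⊥
  · apply assoc_of_op h hN hne
    intro x hx y hy
    have h3 : B x y ∈ Subgroup.closure SD := Subgroup.subset_closure ⟨x, hx, y, hy, rfl⟩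
    rw [hD, Subgroup.mem_bot] at h3
    rw [hBop x y hy hx, h3, one_mul, hab y hy x hx]
  · exfalso
    apply hD
    have hND := reg_le h hreg hDG hD hDN
    -- `B` vanishes on `N × N`
    have z1 : ∀ z, b 0 z = 0 := by
      intro z
      have := b1 0 0 z
      rw [add_zero] at this
      exact left_eq_add.1 this
    have z2 : ∀ z, b z 0 = 0 := by
      intro z
      have := b2 z 0 0
      rw [add_zero] at this
      exact left_eq_add.1 this
    have n1 : ∀ x z, b (-x) z = - b x z := by
      intro x z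
      have := b1 x (-x) z
      rw [add_neg_cancel, z1] at this
      exact (neg_eq_of_add_eq_zero_right this.symm).symm
    have n2 : ∀ x z, b x (-z) = - b x z := by
      intro x z
      have := b2 x z (-z)
      rw [add_neg_cancel, z2] at this
      exact (neg_eq_of_add_eq_zero_right this.symm).symm
    have hv : ∀ m ∈ Subgroup.closure SD, ∀ hm : m ∈ N, ∀ x y : Additive N,
        b (Additive.ofMul ⟨m, hm⟩) (b x y) = 0 := by
      intro m hm
      induction hm using Subgroup.closure_induction with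
      | mem m hm =>
        obtain ⟨x', hx', y', hy', rfl⟩ := hm
        intro hm x y
        exact hlie (Additive.ofMul ⟨x', hx'⟩) (Additive.ofMul ⟨y', hy'⟩) x y
      | one => intro hm x y; exact z1 _
      | mul m1 m2 hm1 hm2 ih1 ih2 =>
        intro hm x y
        have e1 : (Additive.ofMul (⟨m1 * m2, hm⟩ : N)) =
            Additive.ofMul ⟨m1, hDN hm1⟩ + Additive.ofMul ⟨m2, hDN hm2⟩ := rfl
        rw [e1, b1, ih1 (hDN hm1), ih2 (hDN hm2), add_zero]
      | inv m1 hm1 ih1 =>
        intro hm x y
        have e1 : (Additive.ofMul (⟨m1⁻¹, hm⟩ : N)) = - Additive.ofMul ⟨m1, hDN hm1⟩ := rfl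
        rw [e1, n1, ih1 (hDN hm1), neg_zero]
    have hw : ∀ m ∈ Subgroup.closure SD, ∀ hm : m ∈ N, ∀ x : Additive N,
        b x (Additive.ofMul ⟨m, hm⟩) = 0 := by
      intro m hm
      induction hm using Subgroup.closure_induction with
      | mem m hm =>
        obtain ⟨x', hx', y', hy', rfl⟩ := hm
        intro hm x
        have h3 := hv x.toMul.1 (hND x.toMul.2) x.toMul.2 (Additive.ofMul ⟨x', hx'⟩)
          (Additive.ofMul ⟨y', hy'⟩)
        exact h3
      | one => intro hm x; exact z2 _
      | mul m1 m2 hm1 hm2 ih1 ih2 =>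
        intro hm x
        have e1 : (Additive.ofMul (⟨m1 * m2, hm⟩ : N)) =
            Additive.ofMul ⟨m1, hDN hm1⟩ + Additive.ofMul ⟨m2, hDN hm2⟩ := rfl
        rw [e1, b2, ih1 (hDN hm1), ih2 (hDN hm2), add_zero]
      | inv m1 hm1 ih1 =>
        intro hm x
        have e1 : (Additive.ofMul (⟨m1⁻¹, hm⟩ : N)) = - Additive.ofMul ⟨m1, hDN hm1⟩ := rfl
        rw [e1, n2, ih1 (hDN hm1), neg_zero]
    rw [eq_bot_iff, Subgroup.closure_le]
    rintro c ⟨x, hx, y, hy, rfl⟩
    rw [SetLike.mem_coe, Subgroup.mem_bot]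
    have h3 := hw y (hND hy) hy (Additive.ofMul ⟨x, hx⟩)
    have h4 := congrArg (fun z : Additive N => (z.toMul.1 : Perm Q)) h3
    exact h4

end ALoop
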