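import Pool.Agent.H4.Loop.CaseB
import Pool.Agent.H4.Loop.Abel

set_option autoImplicit false

/-!
The multiplication group has a simple normal subgroup with trivial centraliser.
-/

namespace ALoop

open Equiv

variable {Q : Type*} {G : Subgroup (Perm Q)} {L : Q → Perm Q} {J : Perm Q} {e : Q}

/-- conjugate subgroup `c T c⁻¹` -/
def cj (c : Perm Q) (T : Subgroup (Perm Q)) : Subgroup (Perm Q) where
  carrier := {x | c⁻¹ * x * c ∈ T}
  mul_mem' := by
    intro a b ha hb
    have e1 : c⁻¹ * (a * b) * c = (c⁻¹ * a * c) * (c⁻¹ * b * c) := by group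
    change c⁻¹ * (a * b) * c ∈ T
    rw [e1]; exact T.mul_mem ha hb
  one_mem' := by
    change c⁻¹ * 1 * c ∈ T
    have e1 : c⁻¹ * 1 * c = 1 := by group
    rw [e1]; exact T.one_mem
  inv_mem' := by
    intro a ha
    change c⁻¹ * a⁻¹ * c ∈ T
    have e1 : c⁻¹ * a⁻¹ * c = (c⁻¹ * a * c)⁻¹ := by group
    rw [e1]; exact T.inv_mem ha

theorem mem_cj {c x : Perm Q} {T : Subgroup (Perm Q)} : x ∈ cj c T ↔ c⁻¹ * x * c ∈ T := Iff.rfl

theorem cj_mem {c t : Perm Q} {T : Subgroup (Perm Q)} (ht : t ∈ T) : c * t * c⁻¹ ∈ cj c T := by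
  rw [mem_cj]
  have : c⁻¹ * (c * t * c⁻¹) * c = t := by group
  rwa [this]

/-- minimal normal subgroups of `N` -/
structure MinN (N T : Subgroup (Perm Q)) : Prop where
  le : T ≤ N
  nm : Nm N T
  ne : T ≠ ⊥
  min : ∀ M ≤ T, Nm N M → M ≠ ⊥ → M = T

theorem exists_minN [Finite Q] {G' N : Subgroup (Perm Q)} (hN : Nm G' N) (hne : N ≠ ⊥) :
    ∃ T, T ≤ N ∧ Nm G' T ∧ T ≠ ⊥ ∧ ∀ M ≤ T, Nm G' M → M ≠ ⊥ → M = T := by
  classical
  obtain ⟨T, hT⟩ := exists_minimal_of_wellFoundedLT
    (fun T : Subgroup (Perm Q) => T ≤ N ∧ Nm G' T ∧ T ≠ ⊥) ⟨N, le_rfl, hN, hne⟩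
  refine ⟨T, hT.1.1, hT.1.2.1, hT.1.2.2, ?_⟩
  intro M hM hM1 hM2
  exact le_antisymm hM (hT.2 ⟨hM.trans hT.1.1, hM1, hM2⟩ hM)

theorem nm_self (N : Subgroup (Perm Q)) : Nm N N :=
  fun _ hg _ hm => N.mul_mem (N.mul_mem hg hm) (N.inv_mem hg)

theorem MinN.conj {N T : Subgroup (Perm Q)} (hT : MinN N T) {c : Perm Q}
    (h1 : ∀ n ∈ N, c * n * c⁻¹ ∈ N) (h2 : ∀ n ∈ N, c⁻¹ * n * c ∈ N) : MinN N (cj c T) where
  le := by
    intro x hx
    have := h1 _ (hT.le (mem_cj.1 hx))
    have e1 : c * (c⁻¹ * x * c) * c⁻¹ = x := by group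
    rwa [e1] at this
  nm := by
    intro n hn x hx
    rw [mem_cj] at hx ⊢
    have := hT.nm _ (h2 n hn) _ hx
    have e1 : c⁻¹ * n * c * (c⁻¹ * x * c) * (c⁻¹ * n * c)⁻¹ = c⁻¹ * (n * x * n⁻¹) * c := by group
    rwa [e1] at this
  ne := by
    intro h0
    apply hT.ne
    rw [Subgroup.eq_bot_iff_forall]
    intro t ht
    have h3 := cj_mem (c := c) ht
    rw [h0, Subgroup.mem_bot] at h3
    have : t = c⁻¹ * (c * t * c⁻¹) * c := by group
    rw [this, h3]; group
  min := by
    intro M hM hM1 hM2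
    have h3 : cj c⁻¹ M = T := by
      apply hT.min
      · intro x hx
        rw [mem_cj, inv_inv] at hx
        have h4 := hM hx
        rw [mem_cj] at h4
        have e1 : c⁻¹ * (c * x * c⁻¹) * c = x := by group
        rwa [e1] at h4
      · intro n hn x hx
        rw [mem_cj, inv_inv] at hx ⊢
        have h4 := hM1 _ (h1 n hn) _ hx
        have e1 : c * n * c⁻¹ * (c * x * c⁻¹) * (c * n * c⁻¹)⁻¹ = c * (n * x * n⁻¹) * c⁻¹ := by
          group
        rwa [e1] at h4
      · intro h0
        apply hM2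
        rw [Subgroup.eq_bot_iff_forall]
        intro t ht
        have h4 : c⁻¹ * t * c ∈ cj c⁻¹ M := by
          rw [mem_cj, inv_inv]
          have e1 : c * (c⁻¹ * t * c) * c⁻¹ = t := by group
          rwa [e1]
        rw [h0, Subgroup.mem_bot] at h4
        have : t = c * (c⁻¹ * t * c) * c⁻¹ := by group
        rw [this, h4]; group
    apply le_antisymm hM
    intro x hx
    rw [mem_cj, ← h3, mem_cj, inv_inv] at hx
    have e1 : c * (c⁻¹ * x * c) * c⁻¹ = x := by group
    rwa [e1] at hx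

/-- two minimal normal subgroups of `N` are equal or commute (and meet trivially) -/
theorem MinN.dich {N T U : Subgroup (Perm Q)} (hT : MinN N T) (hU : MinN N U) :
    T = U ∨ ((∀ x, x ∈ T → x ∈ U → x = 1) ∧ ∀ a ∈ T, ∀ b ∈ U, a * b = b * a) := by
  by_cases h0 : T ⊓ U = ⊥
  · right
    have hinf : ∀ x, x ∈ T → x ∈ U → x = 1 := by
      intro x hx hx'
      have : x ∈ T ⊓ U := ⟨hx, hx'⟩
      rwa [h0, Subgroup.mem_bot] at this
    refine ⟨hinf, fun a ha b hb => ?_⟩
    exact comm_of_inf (fun g hg m hm => hT.nm g (hU.le hg) m hm)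
      (fun g hg m hm => hU.nm g (hT.le hg) m hm) hinf ha hb
  · left
    have hnm : Nm N (T ⊓ U) := fun g hg m hm => ⟨hT.nm g hg m hm.1, hU.nm g hg m hm.2⟩
    have h1 := hT.min _ inf_le_left hnm h0
    have h2 := hU.min _ inf_le_right hnm h0
    rw [← h1, h2]

theorem structure_thm [Finite Q] (h : AL G L J e) (hna : ¬ Assoc L) :
    ∃ N : Subgroup (Perm Q), N ≤ G ∧ Nm G N ∧ N ≠ ⊥ ∧
      (∀ M ≤ N, Nm N M → M = ⊥ ∨ M = N) ∧ (∃ a ∈ N, ∃ b ∈ N, a * b ≠ b * a) ∧
      (∀ g ∈ G, (∀ n ∈ N, g * n = n * g) → g = 1) ∧ (∃ n ∈ N, n e = e ∧ n ≠ 1) := by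
  classical
  -- `G` is nontrivial
  have hGne : G ≠ ⊥ := by
    rintro rfl
    apply h.Jne
    have hx : ∀ x : Q, x = e := by
      intro x
      have h1 := h.memL x
      rw [Subgroup.mem_bot] at h1
      have h2 := h.Le x
      rw [h1, Perm.one_apply] at h2
      exact h2.symm
    ext x
    rw [hx (J x), Perm.one_apply, hx x]
  obtain ⟨N, hNG, hN, hNne, hNmin⟩ := exists_minN (nm_self G) hGne
  -- `N` is not regular
  have hnotreg : ¬ ∀ n ∈ N, n e = e → n = 1 := by
    intro hreg
    rcases regular_case h hNG hN hNne hreg with h1 | h1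
    · exact hna h1
    · exact hna (abelian_case h hNG hN hNne h1)
  have hreg : ∃ n ∈ N, n e = e ∧ n ≠ 1 := by
    by_contra hcon
    apply hnotreg
    intro n hn hne'
    by_contra h1
    exact hcon ⟨n, hn, hne', h1⟩
  -- trivial centraliser
  have hcent : ∀ g ∈ G, (∀ n ∈ N, g * n = n * g) → g = 1 := by
    let K : Subgroup (Perm Q) :=
      { carrier := {g | g ∈ G ∧ ∀ n ∈ N, g * n = n * g}
        mul_mem' := by
          rintro a b ⟨ha, ha'⟩ ⟨hb, hb'⟩
          refine ⟨G.mul_mem ha hb, fun n hn => ?_⟩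
          calc a * b * n = a * (b * n) := by group
            _ = (a * n) * b := by rw [hb' n hn]; group
            _ = n * (a * b) := by rw [ha' n hn]; group
        one_mem' := ⟨G.one_mem, fun n _ => by simp⟩
        inv_mem' := by
          rintro a ⟨ha, ha'⟩
          refine ⟨G.inv_mem ha, fun n hn => ?_⟩
          calc a⁻¹ * n = a⁻¹ * (n * a) * a⁻¹ := by group
            _ = a⁻¹ * (a * n) * a⁻¹ := by rw [ha' n hn]
            _ = n * a⁻¹ := by group }
    have hKG : Nm G K := by
      rintro g hg k ⟨hk, hk'⟩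
      refine ⟨G.mul_mem (G.mul_mem hg hk) (G.inv_mem hg), fun n hn => ?_⟩
      have h1 := hk' _ (hN g⁻¹ (G.inv_mem hg) n hn)
      rw [inv_inv] at h1
      calc g * k * g⁻¹ * n = g * (k * (g⁻¹ * n * g)) * g⁻¹ := by group
        _ = g * ((g⁻¹ * n * g) * k) * g⁻¹ := by rw [h1]
        _ = n * (g * k * g⁻¹) := by group
    have hK : K = ⊥ := by
      by_contra hK
      apply hnotreg
      intro n hn hne'
      ext q
      obtain ⟨k, hk, rfl⟩ := h.trans hKG hK e q
      have := congrArg (fun p : Perm Q => p e) (hk.2 n hn)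
      simp only [Perm.mul_apply] at this
      rw [← this, hne', Perm.one_apply]
    intro g hg hgn
    have : g ∈ K := ⟨hg, hgn⟩
    rwa [hK, Subgroup.mem_bot] at this
  -- `J` normalises `N`
  have hJN : ∀ n ∈ N, J * n * J ∈ N := by
    let K : Subgroup (Perm Q) :=
      { carrier := {n | n ∈ N ∧ J * n * J ∈ N}
        mul_mem' := by
          rintro a b ⟨ha, ha'⟩ ⟨hb, hb'⟩
          exact ⟨N.mul_mem ha hb, by rw [h.Jmul]; exact N.mul_mem ha' hb'⟩
        one_mem' := ⟨N.one_mem, by rw [mul_one, h.JJ1]; exact N.one_mem⟩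
        inv_mem' := by
          rintro a ⟨ha, ha'⟩
          exact ⟨N.inv_mem ha, by rw [← h.Jmulinv]; exact N.inv_mem ha'⟩ }
    have hKG : Nm G K := by
      rintro g hg n ⟨hn, hn'⟩
      refine ⟨hN g hg n hn, ?_⟩
      have e1 : J * (g * n * g⁻¹) * J = (J * g * J) * (J * n * J) * (J * g * J)⁻¹ := by
        rw [h.Jmul, h.Jmul, h.Jmulinv]
      rw [e1]
      exact hN _ (h.JG g hg) _ hn'
    by_cases hK : K = ⊥
    · intro n hn
      have h1 : J * n * J = 1 := by
        apply hcent _ (h.JG n (hNG hn))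
        intro m hm
        have hc : m * (J * n * J) * m⁻¹ * (J * n * J)⁻¹ ∈ K := by
          constructor
          · have h1 : (J * n * J) * m⁻¹ * (J * n * J)⁻¹ ∈ N :=
              hN _ (h.JG n (hNG hn)) _ (N.inv_mem hm)
            have h2 := N.mul_mem hm h1
            have e1 : m * ((J * n * J) * m⁻¹ * (J * n * J)⁻¹) =
              m * (J * n * J) * m⁻¹ * (J * n * J)⁻¹ := by group
            rwa [e1] at h2
          · have h1 : (J * m * J) * n * (J * m * J)⁻¹ ∈ N := hN _ (h.JG m (hNG hm)) _ hn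
            have h2 := N.mul_mem h1 (N.inv_mem hn)
            have e1 : J * (m * (J * n * J) * m⁻¹ * (J * n * J)⁻¹) * J =
                (J * m * J) * n * (J * m * J)⁻¹ * n⁻¹ := by
              rw [h.Jmul, h.Jmul, h.Jmul, h.JconjJ, h.Jmulinv, h.Jmulinv, h.JconjJ]
            rwa [e1]
        rw [hK, Subgroup.mem_bot] at hc
        calc (J * n * J) * m =
            (m * (J * n * J) * m⁻¹ * (J * n * J)⁻¹)⁻¹ * (m * (J * n * J)) := by group
          _ = m * (J * n * J) := by rw [hc, inv_one, one_mul]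
      rw [h1]; exact N.one_mem
    · intro n hn
      have hKN : K ≤ N := fun a ha => ha.1
      have : K = N := hNmin K hKN hKG hK
      rw [← this] at hn
      exact hn.2
  -- `N` is perfect
  have hperf : N ≤ Subgroup.closure {c | ∃ a ∈ N, ∃ b ∈ N, c = a * b * a⁻¹ * b⁻¹} := by
    set D := Subgroup.closure {c | ∃ a ∈ N, ∃ b ∈ N, c = a * b * a⁻¹ * b⁻¹} with hD
    have hDN : D ≤ N := by
      rw [hD, Subgroup.closure_le]
      rintro c ⟨a, ha, b, hb, rfl⟩
      exact N.mul_mem (N.mul_mem (N.mul_mem ha hb) (N.inv_mem ha)) (N.inv_mem hb)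
    have hDG : Nm G D := by
      intro g hg
      apply closure_conj
      rintro c ⟨a, ha, b, hb, rfl⟩
      apply Subgroup.subset_closure
      refine ⟨g * a * g⁻¹, hN g hg a ha, g * b * g⁻¹, hN g hg b hb, ?_⟩
      group
    have hDne : D ≠ ⊥ := by
      intro h0
      apply hNne
      rw [Subgroup.eq_bot_iff_forall]
      intro n hn
      apply hcent n (hNG hn)
      intro m hm
      have h1 : n * m * n⁻¹ * m⁻¹ ∈ D := Subgroup.subset_closure ⟨n, hn, m, hm, rfl⟩
      rw [h0, Subgroup.mem_bot] at h1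
      calc n * m = (n * m * n⁻¹ * m⁻¹) * (m * n) := by group
        _ = m * n := by rw [h1, one_mul]
    rw [hNmin D hDN hDG hDne]
  -- a minimal normal subgroup `T` of `N`
  obtain ⟨T, hT1, hT2, hT3, hT4⟩ := exists_minN (nm_self N) hNne
  have hT : MinN N T := ⟨hT1, hT2, hT3, hT4⟩
  have hTJ : MinN N (cj J T) := by
    apply hT.conj
    · intro n hn; rw [h.Jinv]; exact hJN n hn
    · intro n hn; rw [h.Jinv]; exact hJN n hn
  have hTg : ∀ g ∈ G, MinN N (cj g T) := by
    intro g hg
    apply hT.conj (hN g hg)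
    intro n hn
    have := hN g⁻¹ (G.inv_mem hg) n hn
    rwa [inv_inv] at this
  have hTJg : ∀ g ∈ G, MinN N (cj g (cj J T)) := by
    intro g hg
    apply hTJ.conj (hN g hg)
    intro n hn
    have := hN g⁻¹ (G.inv_mem hg) n hn
    rwa [inv_inv] at this
  have hmJ : ∀ x, x ∈ cj J T ↔ J * x * J ∈ T := by
    intro x; rw [mem_cj, h.Jinv]
  set M := T ⊔ cj J T with hM
  have hMN : M ≤ N := sup_le hT.le hTJ.le
  have hMne : M ≠ ⊥ := fun h0 => hT.ne (le_bot_iff.1 (h0 ▸ le_sup_left))
  let M' : Subgroup (Perm Q) :=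
    { carrier := {n | n ∈ N ∧ ∀ m ∈ M, m * n = n * m}
      mul_mem' := by
        rintro a b ⟨ha, ha'⟩ ⟨hb, hb'⟩
        refine ⟨N.mul_mem ha hb, fun n hn => ?_⟩
        calc n * (a * b) = (n * a) * b := by group
          _ = a * (n * b) := by rw [ha' n hn]; group
          _ = a * b * n := by rw [hb' n hn]; group
      one_mem' := ⟨N.one_mem, fun n _ => by simp⟩
      inv_mem' := by
        rintro a ⟨ha, ha'⟩
        refine ⟨N.inv_mem ha, fun n hn => ?_⟩
        calc n * a⁻¹ = a⁻¹ * (a * n) * a⁻¹ := by group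
          _ = a⁻¹ * (n * a) * a⁻¹ := by rw [ha' n hn]
          _ = a⁻¹ * n := by group }
  have hJM : ∀ m ∈ M, J * m * J ∈ M := by
    let K : Subgroup (Perm Q) :=
      { carrier := {m | J * m * J ∈ M}
        mul_mem' := by
          intro a b ha hb
          change J * (a * b) * J ∈ M
          rw [h.Jmul]; exact M.mul_mem ha hb
        one_mem' := by
          change J * 1 * J ∈ M
          rw [mul_one, h.JJ1]; exact M.one_mem
        inv_mem' := by
          intro a ha
          change J * a⁻¹ * J ∈ M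
          rw [← h.Jmulinv]; exact M.inv_mem ha }
    have : M ≤ K := by
      apply sup_le
      · intro t ht
        change J * t * J ∈ M
        apply (le_sup_right : cj J T ≤ M)
        rw [hmJ, h.JconjJ]; exact ht
      · intro t ht
        change J * t * J ∈ M
        apply (le_sup_left : T ≤ M)
        exact (hmJ t).1 ht
    exact this
  have hdec : ∀ n ∈ N, ∃ m ∈ M, ∃ m' ∈ M', n = m * m' := by
    let P : Subgroup (Perm Q) :=
      { carrier := {n | ∃ m ∈ M, ∃ m' ∈ M', n = m * m'}
        mul_mem' := by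
          rintro _ _ ⟨a, ha, a', ha', rfl⟩ ⟨b, hb, b', hb', rfl⟩
          refine ⟨a * b, M.mul_mem ha hb, a' * b', M'.mul_mem ha' hb', ?_⟩
          have := ha'.2 b hb
          calc a * a' * (b * b') = a * (a' * b) * b' := by group
            _ = a * b * (a' * b') := by rw [← this]; group
        one_mem' := ⟨1, M.one_mem, 1, M'.one_mem, by simp⟩
        inv_mem' := by
          rintro _ ⟨a, ha, a', ha', rfl⟩
          refine ⟨a⁻¹, M.inv_mem ha, a'⁻¹, M'.inv_mem ha', ?_⟩
          rw [ha'.2 a ha]; group }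
    set U := Subgroup.closure {c | ∃ g ∈ G, ∃ t ∈ T, c = g * t * g⁻¹} with hU
    have hUN : U ≤ N := by
      rw [hU, Subgroup.closure_le]
      rintro c ⟨g, hg, t, ht, rfl⟩
      exact hN g hg t (hT.le ht)
    have hUG : Nm G U := by
      intro g hg
      apply closure_conj
      rintro c ⟨k, hk, t, ht, rfl⟩
      apply Subgroup.subset_closure
      exact ⟨g * k, G.mul_mem hg hk, t, ht, by group⟩
    have hUne : U ≠ ⊥ := by
      intro h0
      apply hT.ne
      rw [Subgroup.eq_bot_iff_forall]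
      intro t ht
      have : t ∈ U := Subgroup.subset_closure ⟨1, G.one_mem, t, ht, by simp⟩
      rwa [h0, Subgroup.mem_bot] at this
    have hUeq : U = N := hNmin U hUN hUG hUne
    have hUP : U ≤ P := by
      rw [hU, Subgroup.closure_le]
      rintro c ⟨g, hg, t, ht, rfl⟩
      have hc : g * t * g⁻¹ ∈ cj g T := cj_mem ht
      have hcN : g * t * g⁻¹ ∈ N := hN g hg t (hT.le ht)
      rcases hT.dich (hTg g hg) with h1 | ⟨_, h1⟩
      · refine ⟨g * t * g⁻¹, (le_sup_left : T ≤ M) ?_, 1, M'.one_mem, by simp⟩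
        rw [h1]; exact hc
      rcases hTJ.dich (hTg g hg) with h2 | ⟨_, h2⟩
      · refine ⟨g * t * g⁻¹, (le_sup_right : cj J T ≤ M) ?_, 1, M'.one_mem, by simp⟩
        rw [h2]; exact hc
      refine ⟨1, M.one_mem, g * t * g⁻¹, ⟨hcN, ?_⟩, by simp⟩
      have h3 : M ≤ Subgroup.centralizer {g * t * g⁻¹} := by
        apply sup_le
        · intro a ha
          rw [Subgroup.mem_centralizer_singleton_iff]
          exact h1 a ha _ hc
        · intro a ha
          rw [Subgroup.mem_centralizer_singleton_iff]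
          exact h2 a ha _ hc
      intro m hm
      exact Subgroup.mem_centralizer_singleton_iff.1 (h3 hm)
    intro n hn
    rw [← hUeq] at hn
    exact hUP hn
  have hMG : Nm G M := by
    refine DD.normal h (N := N) (M' := M') ⟨hNG, hN, hcent, hreg, hperf, hMN, fun x hx => hx.1,
      fun m hm m' hm' => hm'.2 m hm, hdec, hJM, ?_⟩
    rintro m ⟨hm, hm'⟩
    refine ⟨hJN m hm, fun k hk => ?_⟩
    have h1 := hm' _ (hJM k hk)
    calc k * (J * m * J) = J * ((J * k * J) * m) * J := by
          rw [h.Jmul, h.JconjJ]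
      _ = (J * m * J) * k := by rw [h1, h.Jmul, h.JconjJ]
  have hMeq : M = N := hNmin M hMN hMG hMne
  refine ⟨N, hNG, hN, hNne, ?_, ?_, hcent, hreg⟩
  · rcases hT.dich hTJ with h1 | ⟨hinf, hcom⟩
    · have h2 : T = N := by rw [← hMeq, hM, ← h1, sup_idem]
      intro M₁ hM₁ hM₁n
      by_cases h0 : M₁ = ⊥
      · exact Or.inl h0
      · right
        rw [← h2] at hM₁
        rw [← h2]
        exact hT.min M₁ hM₁ hM₁n h0
    · exfalso
      -- case B
      have hmem : ∀ t ∈ T, J * t * J ∈ cj J T := by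
        intro t ht
        rw [hmJ, h.JconjJ]; exact ht
      have hdec' : ∀ n ∈ N, ∃ t ∈ T, ∃ s ∈ T, n = t * (J * s * J) := by
        let P : Subgroup (Perm Q) :=
          { carrier := {n | ∃ t ∈ T, ∃ s ∈ T, n = t * (J * s * J)}
            mul_mem' := by
              rintro _ _ ⟨a, ha, a', ha', rfl⟩ ⟨b, hb, b', hb', rfl⟩
              refine ⟨a * b, T.mul_mem ha hb, a' * b', T.mul_mem ha' hb', ?_⟩
              have := hcom b hb _ (hmem a' ha')
              calc a * (J * a' * J) * (b * (J * b' * J)) =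
                  a * ((J * a' * J) * b) * (J * b' * J) := by group
                _ = a * b * ((J * a' * J) * (J * b' * J)) := by rw [← this]; group
                _ = a * b * (J * (a' * b') * J) := by rw [h.Jmul]
            one_mem' := ⟨1, T.one_mem, 1, T.one_mem, by rw [mul_one, h.JJ1, one_mul]⟩
            inv_mem' := by
              rintro _ ⟨a, ha, a', ha', rfl⟩
              refine ⟨a⁻¹, T.inv_mem ha, a'⁻¹, T.inv_mem ha', ?_⟩
              rw [hcom a ha _ (hmem a' ha'), mul_inv_rev, h.Jmulinv] }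
        have : M ≤ P := by
          apply sup_le
          · intro t ht
            exact ⟨t, ht, 1, T.one_mem, by rw [mul_one, h.JJ1, mul_one]⟩
          · intro t ht
            exact ⟨1, T.one_mem, J * t * J, (hmJ t).1 ht, by rw [h.JconjJ, one_mul]⟩
        rw [hMeq] at this
        exact fun n hn => this hn
      have hcomN : ∀ U : Subgroup (Perm Q), MinN N U → U = T ∨ U = cj J T := by
        intro U hU
        rcases hU.dich hT with h1 | ⟨_, h1⟩
        · exact Or.inl h1
        rcases hU.dich hTJ with h2 | ⟨_, h2⟩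
        · exact Or.inr h2
        exfalso
        apply hU.ne
        rw [Subgroup.eq_bot_iff_forall]
        intro u hu
        apply hcent u (hNG (hU.le hu))
        intro n hn
        obtain ⟨t, ht, s, hs, rfl⟩ := hdec' n hn
        have e1 := h1 u hu t ht
        have e2 := h2 u hu _ (hmem s hs)
        calc u * (t * (J * s * J)) = (u * t) * (J * s * J) := by group
          _ = t * (u * (J * s * J)) := by rw [e1]; group
          _ = t * (J * s * J) * u := by rw [e2]; group
      have hTne : T ≠ cj J T := by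
        intro h0
        apply hT.ne
        rw [Subgroup.eq_bot_iff_forall]
        intro t ht
        exact hinf t ht (h0 ▸ ht)
      have hcjinj : ∀ (g : Perm Q) (A B : Subgroup (Perm Q)), cj g A = cj g B → A = B := by
        intro g A B hAB
        ext x
        have h1 : ∀ C : Subgroup (Perm Q), x ∈ C ↔ g * x * g⁻¹ ∈ cj g C := by
          intro C
          rw [mem_cj]
          have e1 : g⁻¹ * (g * x * g⁻¹) * g = x := by group
          rw [e1]
        rw [h1 A, h1 B, hAB]
      have hsw : ∀ g ∈ G, ((∀ t ∈ T, g * t * g⁻¹ ∈ T) ∧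
            (∀ t ∈ T, J * (g * (J * t * J) * g⁻¹) * J ∈ T)) ∨
          ((∀ t ∈ T, J * (g * t * g⁻¹) * J ∈ T) ∧ (∀ t ∈ T, g * (J * t * J) * g⁻¹ ∈ T)) := by
        intro g hg
        rcases hcomN _ (hTg g hg) with h1 | h1
        · left
          have h2 : cj g (cj J T) = cj J T := by
            rcases hcomN _ (hTJg g hg) with h3 | h3
            · exact absurd (hcjinj g _ _ (h1.trans h3.symm)) hTne
            · exact h3
          refine ⟨fun t ht => ?_, fun t ht => ?_⟩
          · rw [← h1]; exact cj_mem ht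
          · rw [← hmJ, ← h2]; exact cj_mem (hmem t ht)
        · right
          have h2 : cj g (cj J T) = T := by
            rcases hcomN _ (hTJg g hg) with h3 | h3
            · exact h3
            · exact absurd (hcjinj g _ _ (h1.trans h3.symm)) hTne
          refine ⟨fun t ht => ?_, fun t ht => ?_⟩
          · rw [← hmJ, ← h1]; exact cj_mem ht
          · have := cj_mem (c := g) (hmem t ht)
            rwa [h2] at this
      have hB := caseB h hNG hN hNne hT.le hJN
        (fun t ht ht' => hinf t ht ((hmJ t).2 ht'))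
        (fun t ht s hs => hcom t ht _ (hmem s hs)) hdec' hsw
      have hTN : T = N := hNmin T hT.le hB hT.ne
      apply hT.ne
      rw [Subgroup.eq_bot_iff_forall]
      intro t ht
      apply hinf t ht
      rw [hmJ, hTN]
      exact hJN t (hT.le ht)
  · by_contra hcon
    apply hNne
    rw [Subgroup.eq_bot_iff_forall]
    intro n hn
    apply hcent n (hNG hn)
    intro m hm
    by_contra h1
    exact hcon ⟨n, hn, m, hm, h1⟩

end ALoop
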