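import Pool.Agent.H4.Loop.Prim

set_option autoImplicit false

/-!
Basic facts on automorphic loops: flexible law, two-sided inverses, antiautomorphic inverse property.
-/

namespace ALoop

open Equiv

variable {Q : Type*}

theorem apply_inv' (p : Perm Q) (x : Q) : p (p⁻¹ x) = x := p.apply_symm_apply x

theorem inv_apply' (p : Perm Q) (x : Q) : p⁻¹ (p x) = x := p.symm_apply_apply x

theorem al_of_loop (L R : Q → Perm Q) (e : Q) (hLR : ∀ x y, L x y = R y x)
    (he : ∀ x, L e x = x ∧ L x e = x)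
    (haut : ∀ g ∈ Subgroup.closure (Set.range L ∪ Set.range R), g e = e →
      ∀ x y, g (L x y) = L (g x) (g y))
    (hsimple : ∀ r : Q → Q → Prop, Equivalence r →
      (∀ a b c d, r a b → r c d → r (L a c) (L b d)) → (∀ a b, r a b → a = b) ∨ (∀ a b, r a b))
    (hexp : ∃ x, L x x ≠ e) :
    ∃ J : Perm Q, AL (Subgroup.closure (Set.range L ∪ Set.range R)) L J e := by
  set G := Subgroup.closure (Set.range L ∪ Set.range R) with hG
  have memL : ∀ x, L x ∈ G := fun x => Subgroup.subset_closure (Or.inl ⟨x, rfl⟩)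
  have memR : ∀ x, R x ∈ G := fun x => Subgroup.subset_closure (Or.inr ⟨x, rfl⟩)
  have Re : ∀ x, R x e = x := fun x => by rw [← hLR]; exact (he x).1
  have equi : ∀ g ∈ G, g e = e → ∀ x, g * L x * g⁻¹ = L (g x) := by
    intro g hg hge x
    rw [mul_inv_eq_iff_eq_mul]
    ext y
    exact haut g hg hge x y
  -- flexible law
  have flex : ∀ x y, L x (L y x) = L (L x y) x := by
    intro x y
    have h1 : (R x)⁻¹ * L x ∈ G := G.mul_mem (G.inv_mem (memR x)) (memL x)
    have h2 : ((R x)⁻¹ * L x) e = e := by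
      rw [Perm.mul_apply, (he x).2, Perm.inv_eq_iff_eq, Re]
    have h3 : ((R x)⁻¹ * L x) x = x := by
      rw [Perm.mul_apply, Perm.inv_eq_iff_eq]
      exact hLR x x
    have h4 := equi _ h1 h2 x
    rw [h3, mul_inv_eq_iff_eq_mul] at h4
    have h5 : (R x)⁻¹ * L x = L x * (R x)⁻¹ := by
      have : (R x)⁻¹ * L x * L x = L x * (R x)⁻¹ * L x := by rw [h4]; group
      exact mul_right_cancel this
    have h6 : L x * R x = R x * L x := by
      calc L x * R x = R x * ((R x)⁻¹ * L x) * R x := by group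
        _ = R x * L x := by rw [h5]; group
    have h7 := congrArg (fun p : Perm Q => p y) h6
    simp only [Perm.mul_apply] at h7
    rw [← hLR, ← hLR] at h7
    exact h7
  have linv : ∀ x, L ((L x)⁻¹ e) x = e := by
    intro x
    apply (L x).injective
    rw [flex, apply_inv', (he x).1, (he x).2]
  let J0 : Q → Q := fun x => (L x)⁻¹ e
  have hJ0 : Function.Involutive J0 := by
    intro x
    change (L ((L x)⁻¹ e))⁻¹ e = x
    rw [Perm.inv_eq_iff_eq, linv]
  let J : Perm Q := Function.Involutive.toPerm J0 hJ0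
  have hJ : ∀ x, J x = (L x)⁻¹ e := fun x => rfl
  have hJJ : ∀ x, J (J x) = x := fun x => hJ0 x
  have hLJ : ∀ x, L x (J x) = e := fun x => by rw [hJ, apply_inv']
  have hJe : J e = e := by rw [hJ, Perm.inv_eq_iff_eq, (he e).1]
  have comJ : ∀ g ∈ G, g e = e → ∀ x, g (J x) = J (g x) := by
    intro g hg hge x
    have h1 := haut g hg hge x (J x)
    rw [hLJ, hge] at h1
    rw [hJ (g x), ← Perm.inv_eq_iff_eq.2 h1]
  have aaip : ∀ c p, J (L c p) = L (J p) (J c) := by
    intro c p
    set x := L c p with hx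
    set y := (L x)⁻¹ c with hy
    have hxy : L x y = c := by rw [hy, apply_inv']
    clear_value y
    have hφG : (L c)⁻¹ * (L x * L y) ∈ G :=
      G.mul_mem (G.inv_mem (memL c)) (G.mul_mem (memL x) (memL y))
    have hφ : ∀ z, ((L c)⁻¹ * (L x * L y)) z = (L c)⁻¹ (L x (L y z)) := fun z => rfl
    set φ := (L c)⁻¹ * (L x * L y)
    have hφe : φ e = e := by
      rw [hφ, (he y).2, hxy, Perm.inv_eq_iff_eq, (he c).2]
    have hφx : φ x = x := by
      rw [hφ, flex, hxy, inv_apply']
    have hφJy : φ (J y) = p := by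
      rw [hφ, hLJ, (he x).2, Perm.inv_eq_iff_eq]
    have hφy : φ y = J p := by
      rw [← hφJy, comJ φ hφG hφe, hJJ]
    have hφw : φ ((L y)⁻¹ (J x)) = J c := by
      rw [hφ, apply_inv', hLJ, hJ c]
    have h1 := haut φ hφG hφe y ((L y)⁻¹ (J x))
    rw [apply_inv', hφy, hφw, comJ φ hφG hφe, hφx] at h1
    exact h1
  have JLJ : ∀ x, J * L x * J = R (J x) := by
    intro x
    ext z
    rw [Perm.mul_apply, Perm.mul_apply, aaip, hJJ, hLR]
  have JRJ : ∀ x, J * R x * J = L (J x) := by
    intro x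
    ext z
    rw [Perm.mul_apply, Perm.mul_apply, ← hLR, aaip, hJJ]
  have hJ1 : J * J = 1 := by
    ext x; exact hJJ x
  have JG : ∀ g ∈ G, J * g * J ∈ G := by
    intro g hg
    rw [hG] at hg
    induction hg using Subgroup.closure_induction with
    | mem x hx =>
      rcases hx with ⟨y, rfl⟩ | ⟨y, rfl⟩
      · rw [JLJ]; exact memR _
      · rw [JRJ]; exact memL _
    | one => rw [mul_one, hJ1]; exact G.one_mem
    | mul x y _ _ hx hy =>
      have : J * (x * y) * J = (J * x * J) * (J * y * J) := by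
        calc J * (x * y) * J = J * x * 1 * y * J := by group
          _ = (J * x * J) * (J * y * J) := by rw [← hJ1]; group
      rw [this]; exact G.mul_mem hx hy
    | inv x _ hx =>
      have hJi : J⁻¹ = J := inv_eq_of_mul_eq_one_left hJ1
      have : J * x⁻¹ * J = (J * x * J)⁻¹ := by
        rw [mul_inv_rev, mul_inv_rev, hJi]; group
      rw [this]; exact G.inv_mem hx
  refine ⟨J, ⟨memL, fun x => (he x).2, hJe, hJJ, hLJ, aaip, equi, ?_, JG, ?_, ?_, ?_⟩⟩
  · intro g hg hge
    ext x
    exact comJ g hg hge x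
  · rw [hG]
    congr 2
    ext p
    constructor
    · rintro ⟨y, rfl⟩
      refine ⟨J y, ?_⟩
      change J * L (J y) * J = R y
      rw [JLJ, hJJ]
    · rintro ⟨y, rfl⟩
      exact ⟨J y, (JLJ y).symm⟩
  · intro r hr hG'
    apply hsimple r hr
    intro a b c d hab hcd
    have h1 := hG' _ (memR c) a b hab
    rw [← hLR, ← hLR] at h1
    exact hr.trans h1 (hG' _ (memL b) c d hcd)
  · intro hJ'
    obtain ⟨x, hx⟩ := hexp
    apply hx
    have := hLJ x
    rw [hJ', Perm.one_apply] at this
    exact this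

end ALoop
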