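import Pool.Agent.H4.Loop.Struct
import Pool.Agent.H4.Loop.Basic

set_option autoImplicit false

namespace ALoop

open Equiv

variable {Q : Type*} {G : Subgroup (Perm Q)} {L : Q → Perm Q} {J : Perm Q} {e : Q}

/-- the conjugates of `J` by elements of `G` -/
theorem AL.conjJ (h : AL G L J e) {g : Perm Q} (hg : g ∈ G) :
    g * J * g⁻¹ = L (g e) * J * (L (g e))⁻¹ := by
  obtain ⟨h1, h2⟩ := h.fix_part hg
  have h3 := h.comJ _ h1 h2
  have h4 : g = L (g e) * ((L (g e))⁻¹ * g) := by group
  set u := (L (g e))⁻¹ * g with hu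
  calc g * J * g⁻¹ = (L (g e) * u) * J * (L (g e) * u)⁻¹ := by rw [← h4]
    _ = L (g e) * (u * J) * u⁻¹ * (L (g e))⁻¹ := by group
    _ = L (g e) * J * (L (g e))⁻¹ := by rw [h3]; group

/-- different points have different conjugates of `J` -/
theorem AL.conjJ_inj (h : AL G L J e) {x y : Q}
    (hxy : L x * J * (L x)⁻¹ = L y * J * (L y)⁻¹) : x = y := by
  have h1 : (L y)⁻¹ * L x ∈ G := G.mul_mem (G.inv_mem (h.memL y)) (h.memL x)
  have h2 : ((L y)⁻¹ * L x) * J = J * ((L y)⁻¹ * L x) := by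
    calc ((L y)⁻¹ * L x) * J = (L y)⁻¹ * (L x * J * (L x)⁻¹) * L x := by group
      _ = J * ((L y)⁻¹ * L x) := by rw [hxy]; group
  have h3 := h.centJ h1 h2
  rw [Perm.mul_apply, Perm.inv_eq_iff_eq, h.Le, h.Le] at h3
  exact h3

/-- `L x` commutes with `J (L x) J` -/
theorem AL.comLR (h : AL G L J e) (x : Q) : L x * (J * L x * J) = (J * L x * J) * L x := by
  -- `D = L_{J x} L_x` fixes `e` and `x`
  have fixJ : ∀ g ∈ G, g e = e → ∀ y, g (J y) = J (g y) := by
    intro g hg hge y
    have := congrArg (fun p : Perm Q => p y) (h.comJ g hg hge)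
    simpa using this
  have hD : L (J x) * L x ∈ G := G.mul_mem (h.memL _) (h.memL _)
  have hDe : (L (J x) * L x) e = e := by rw [Perm.mul_apply, h.Le, h.LJ']
  have hDx : (L (J x) * L x) x = x := by
    have h1 : (L (J x) * L x) (J x) = J x := by
      rw [Perm.mul_apply, h.LJ, h.Le]
    rw [fixJ _ hD hDe] at h1
    exact J.injective h1
  have c1 : L (J x) * L x = L x * L (J x) := by
    have h2 := h.comL hD hDe hDx
    have h3 : L (J x) * L x * L x = L x * L (J x) * L x := by rw [h2]; group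
    exact mul_right_cancel h3
  -- `T = (R_{J x})⁻¹ L_{J x}` fixes `e` and `x`
  set R' := J * L x * J with hR'
  have hR'a : ∀ y, R' y = L y (J x) := by
    intro y
    have := h.R_apply y (J x)
    rw [h.JJ] at this
    exact this
  have hR'G : R' ∈ G := h.JG _ (h.memL x)
  have hT : R'⁻¹ * L (J x) ∈ G := G.mul_mem (G.inv_mem hR'G) (h.memL _)
  have hTe : (R'⁻¹ * L (J x)) e = e := by
    rw [Perm.mul_apply, h.Le, Perm.inv_eq_iff_eq, hR'a, h.Le1, Perm.one_apply]
  have hTx : (R'⁻¹ * L (J x)) x = x := by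
    rw [Perm.mul_apply, h.LJ', Perm.inv_eq_iff_eq, hR'a, h.LJ]
  have c2 := h.comL hT hTe hTx
  have h4 : R' = L (J x) * (R'⁻¹ * L (J x))⁻¹ := by group
  have c3 : Commute (L x) (L (J x)) := c1.symm
  have c4 : Commute (L x) (R'⁻¹ * L (J x)) := c2.symm
  have c5 := c3.mul_right c4.inv_right
  rw [← h4] at c5
  exact c5

/-- left translations have no fixed points -/
theorem AL.fpf (h : AL G L J e) {x y : Q} (hxy : L x y = y) : x = e := by
  have h1 := h.R_apply x y
  have h2 := h.R_apply e y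
  rw [hxy] at h1
  rw [h.Le1, Perm.one_apply] at h2
  exact (J * L (J y) * J).injective (h1.trans h2.symm)

/-- the group theoretic condition -/
theorem AL.fusion (h : AL G L J e) {g : Perm Q} (hg : g ∈ G) :
    ∃ t ∈ G, t * J * t⁻¹ = g * J * g⁻¹ ∧ t * (J * t * J) = (J * t * J) * t ∧
      (∀ k ∈ G, k * J = J * k → k * (g * J * g⁻¹) = (g * J * g⁻¹) * k → k * t = t * k) ∧
      (∀ a ∈ G, (a * t * a⁻¹) * J = J * (a * t * a⁻¹) → g * J = J * g) := by
  refine ⟨L (g e), h.memL _, (h.conjJ hg).symm, h.comLR _, ?_, ?_⟩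
  swap
  · intro a ha hat
    have h1 := h.centJ (G.mul_mem (G.mul_mem ha (h.memL _)) (G.inv_mem ha)) hat
    rw [Perm.mul_apply, Perm.mul_apply] at h1
    have h2 : L (g e) (a⁻¹ e) = a⁻¹ e := by
      rw [Perm.eq_inv_iff_eq]; exact h1
    exact h.comJ g hg (h.fpf h2)
  intro k hk hkJ hkg
  have hke := h.centJ hk hkJ
  apply h.comL hk hke
  have h1 : (k * g) * J * (k * g)⁻¹ = g * J * g⁻¹ := by
    calc (k * g) * J * (k * g)⁻¹ = k * (g * J * g⁻¹) * k⁻¹ := by group
      _ = g * J * g⁻¹ := by rw [hkg]; group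
  rw [h.conjJ (G.mul_mem hk hg), h.conjJ hg] at h1
  exact h.conjJ_inj h1

/-- even order: `J` does not induce an inner automorphism of `G` -/
theorem AL.notInner [Finite Q] (h : AL G L J e) (hn : ∃ n ∈ G, n ≠ 1 ∧ n e = e)
    (heven : Even (Nat.card Q)) : ∀ g ∈ G, ∃ a ∈ G, J * a * J ≠ g * a * g⁻¹ := by
  classical
  haveI := Fintype.ofFinite Q
  intro g hg
  by_contra hcon
  push Not at hcon
  -- `u = g⁻¹ J` commutes with `G`
  have hu : ∀ a ∈ G, (g⁻¹ * J) * a = a * (g⁻¹ * J) := by
    intro a ha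
    have h1 := hcon a ha
    calc (g⁻¹ * J) * a = g⁻¹ * (J * a * J) * J⁻¹ := by group
      _ = a * (g⁻¹ * J) := by rw [h1, h.Jinv]; group
  set u := g⁻¹ * J with hud
  have hue : u e = e := by
    -- points with the same stabiliser
    have key := h.prim_map (fun x => {k : Perm Q | k ∈ G ∧ k x = x}) (by
      intro k hk a b hab
      simp only [Set.ext_iff, Set.mem_ofPred_eq] at hab ⊢
      have hstep : ∀ (s : Perm Q) (c : Q), (s ∈ G ∧ s (k c) = k c) ↔
          (k⁻¹ * s * k ∈ G ∧ (k⁻¹ * s * k) c = c) := by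
        intro s c
        constructor
        · rintro ⟨h1, h2⟩
          refine ⟨G.mul_mem (G.mul_mem (G.inv_mem hk) h1) hk, ?_⟩
          rw [Perm.mul_apply, Perm.mul_apply, h2, Perm.inv_eq_iff_eq]
        · rintro ⟨h1, h2⟩
          have e1 : s = k * (k⁻¹ * s * k) * k⁻¹ := by group
          refine ⟨by rw [e1]; exact G.mul_mem (G.mul_mem hk h1) (G.inv_mem hk), ?_⟩
          rw [Perm.mul_apply, Perm.mul_apply, Perm.inv_eq_iff_eq] at h2
          exact h2
      intro s
      rw [hstep s a, hstep s b]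
      exact hab _)
    rcases key with hk | hk
    · apply hk
      simp only [Set.ext_iff, Set.mem_ofPred_eq]
      intro s
      constructor
      · rintro ⟨h1, h2⟩
        refine ⟨h1, ?_⟩
        have h3 := congrArg (fun p : Perm Q => p e) (hu s h1)
        simp only [Perm.mul_apply] at h3
        rw [h2] at h3
        exact u.injective h3
      · rintro ⟨h1, h2⟩
        refine ⟨h1, ?_⟩
        have h3 := congrArg (fun p : Perm Q => p e) (hu s h1)
        simp only [Perm.mul_apply] at h3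
        rw [h2] at h3
        exact h3.symm
    · exfalso
      obtain ⟨n, hn, hn1, hne⟩ := hn
      apply hn1
      ext x
      have h1 := hk e x
      simp only [Set.ext_iff, Set.mem_ofPred_eq] at h1
      exact ((h1 n).1 ⟨hn, hne⟩).2
  have hu1 : u = 1 := by
    ext x
    have h3 := congrArg (fun p : Perm Q => p e) (hu _ (h.memL x))
    simp only [Perm.mul_apply] at h3
    rw [h.Le, hue, h.Le] at h3
    exact h3
  have hJG : J ∈ G := by
    have : J = g * u := by rw [hud]; group
    rw [this, hu1, mul_one]; exact hg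
  -- another fixed point of `J`
  have hfix : ∃ b : Q, J b = b ∧ b ≠ e := by
    haveI : Fact (Nat.Prime 2) := ⟨Nat.prime_two⟩
    apply Equiv.Perm.exists_fixed_point_of_prime' (p := 2) (n := 1) _ _ h.Je
    · rw [← Nat.card_eq_fintype_card]; exact even_iff_two_dvd.1 heven
    · rw [pow_one, pow_two, h.JJ1]
  obtain ⟨x, hx, hxe⟩ := hfix
  have h5 := h.comL hJG h.Je hx
  have h6 := h.centJ (h.memL x) h5.symm
  rw [h.Le] at h6
  exact hxe h6

end ALoop
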