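import Pool.Agent.H4.Loop.Direct

set_option autoImplicit false

/-!
`N = T × T^J` is impossible: `T` would be normalised by `G`.
-/

namespace ALoop

open Equiv

variable {Q : Type*} {G : Subgroup (Perm Q)} {L : Q → Perm Q} {J : Perm Q} {e : Q}
  {N T : Subgroup (Perm Q)}

theorem caseB [Finite Q] (h : AL G L J e) (hNG : N ≤ G) (hN : Nm G N) (hne : N ≠ ⊥)
    (hT : T ≤ N) (hJN : ∀ n ∈ N, J * n * J ∈ N)
    (hinf : ∀ t ∈ T, J * t * J ∈ T → t = 1)
    (hcomm : ∀ t ∈ T, ∀ s ∈ T, t * (J * s * J) = (J * s * J) * t)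
    (hdec : ∀ n ∈ N, ∃ t ∈ T, ∃ s ∈ T, n = t * (J * s * J))
    (hsw : ∀ g ∈ G, ((∀ t ∈ T, g * t * g⁻¹ ∈ T) ∧
        (∀ t ∈ T, J * (g * (J * t * J) * g⁻¹) * J ∈ T)) ∨
      ((∀ t ∈ T, J * (g * t * g⁻¹) * J ∈ T) ∧ (∀ t ∈ T, g * (J * t * J) * g⁻¹ ∈ T))) :
    Nm G T := by
  -- every left translation normalises `T` and `T^J`
  have hL : ∀ x : Q, (∀ t ∈ T, L x * t * (L x)⁻¹ ∈ T) ∧
      (∀ t ∈ T, J * (L x * (J * t * J) * (L x)⁻¹) * J ∈ T) := by
    intro x
    obtain ⟨n, hn, hnx⟩ := h.trans hN hne e x
    obtain ⟨t1, ht1, t2, ht2, rfl⟩ := hdec n hn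
    -- the element `t2 J t2 J` fixes `e`
    have hfix : ∀ t ∈ T, (t * (J * t * J)) e = e := by
      intro t ht
      apply h.centJ (hNG (N.mul_mem (hT ht) (hJN t (hT ht))))
      have h1 : J * (t * (J * t * J)) * J = t * (J * t * J) := by
        rw [h.Jmul, h.JconjJ, ← hcomm t ht t ht]
      calc t * (J * t * J) * J = (J * (t * (J * t * J)) * J) * J := by rw [h1]
        _ = J * (t * (J * t * J)) * (J * J) := by group
        _ = J * (t * (J * t * J)) := by rw [h.JJ1, mul_one]
    have hxt : ∃ t ∈ T, x = t e := by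
      refine ⟨t1 * t2⁻¹, T.mul_mem ht1 (T.inv_mem ht2), ?_⟩
      have h1 := hfix t2 ht2
      have h2 : t1 * (J * t2 * J) = (t1 * t2⁻¹) * (t2 * (J * t2 * J)) := by group
      rw [← hnx, h2, Perm.mul_apply (t1 * t2⁻¹), h1]
    clear hnx hn ht1 ht2
    obtain ⟨t, ht, rfl⟩ := hxt
    set r := t * (J * t * J) with hr
    have hrG : r ∈ G := hNG (N.mul_mem (hT ht) (hJN t (hT ht)))
    have hre : r e = e := hfix t ht
    have hrt : r * t = t * r := by
      have := hcomm t ht t ht
      calc r * t = t * ((J * t * J) * t) := by rw [hr]; group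
        _ = t * r := by rw [← this]
    have hrx : r (t e) = t e := by
      have := congrArg (fun p : Perm Q => p e) hrt
      simp only [Perm.mul_apply] at this
      rw [this, hre]
    have hLr := h.comL hrG hre hrx
    set g := L (t e) with hg
    have hgG : g ∈ G := h.memL _
    have hge : g e = t e := h.Le _
    -- the inner mapping `k = t⁻¹ g`
    have hkG : t⁻¹ * g ∈ G := G.mul_mem (G.inv_mem (hNG (hT ht))) hgG
    have hke : (t⁻¹ * g) e = e := by
      rw [Perm.mul_apply, hge, Perm.inv_eq_iff_eq]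
    have hkr : (t⁻¹ * g) * r = r * (t⁻¹ * g) := by
      have h1 : t⁻¹ * r = r * t⁻¹ := by
        calc t⁻¹ * r = t⁻¹ * (r * t) * t⁻¹ := by group
          _ = t⁻¹ * (t * r) * t⁻¹ := by rw [hrt]
          _ = r * t⁻¹ := by group
      calc t⁻¹ * g * r = t⁻¹ * (g * r) := by group
        _ = (t⁻¹ * r) * g := by rw [← hLr]; group
        _ = r * (t⁻¹ * g) := by rw [h1]; group
    set k := t⁻¹ * g with hk
    rcases hsw g hgG with hg1 | hg2
    · exact hg1
    · exfalso
      -- `k` swaps `T` and `T^J`
      have hgk : g = t * k := by rw [hk]; group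
      have e1 : k * t * k⁻¹ = J * (J * (k * t * k⁻¹) * J) * J := (h.JconjJ _).symm
      have e2 : J * (k * t * k⁻¹) * J ∈ T := by
        -- `k t k⁻¹ = t⁻¹ (g t g⁻¹) t = g t g⁻¹`
        have h1 := hg2.1 t ht
        have h2 := hcomm t⁻¹ (T.inv_mem ht) _ h1
        rw [h.JconjJ] at h2
        have h3 : k * t * k⁻¹ = g * t * g⁻¹ := by
          calc k * t * k⁻¹ = t⁻¹ * (g * t * g⁻¹) * t := by rw [hk]; group
            _ = (g * t * g⁻¹) := by rw [h2]; group
        rw [h3]; exact h1
      have e3 : k * (J * t * J) * k⁻¹ ∈ T := by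
        have h1 := hg2.2 t ht
        have h3 : k * (J * t * J) * k⁻¹ = t⁻¹ * (g * (J * t * J) * g⁻¹) * t := by
          rw [hk]; group
        rw [h3]
        exact T.mul_mem (T.mul_mem (T.inv_mem ht) h1) ht
      set u := J * (k * t * k⁻¹) * J with hu
      set v := k * (J * t * J) * k⁻¹ with hv
      have hkt : k * t * k⁻¹ = J * u * J := e1
      have e4 : (J * u * J) * v = t * (J * t * J) := by
        have h1 : k * r * k⁻¹ = r := by rw [hkr]; group
        calc (J * u * J) * v = (k * t * k⁻¹) * (k * (J * t * J) * k⁻¹) := by rw [← hkt]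
          _ = k * r * k⁻¹ := by rw [hr]; group
          _ = t * (J * t * J) := by rw [h1]
      have e5 : v * (J * u * J) = t * (J * t * J) := by
        rw [hcomm v e3 u e2]; exact e4
      -- `t⁻¹ v = (J t J) (J u J)⁻¹`
      have e6 : t⁻¹ * v = J * (t * u⁻¹) * J := by
        have h1 : t⁻¹ * (v * (J * u * J)) * (J * u * J)⁻¹ = t⁻¹ * v := by group
        rw [← h1, e5, h.Jmulinv, h.Jmul]; group
      have e7 : t⁻¹ * v = 1 := by
        apply hinf _ (T.mul_mem (T.inv_mem ht) e3)
        rw [e6, h.JconjJ]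
        exact T.mul_mem ht (T.inv_mem e2)
      have e8 : t = u := by
        rw [e6] at e7
        have h1 : J * (J * (t * u⁻¹) * J) * J = t * u⁻¹ := h.JconjJ _
        rw [e7, mul_one, h.JJ1] at h1
        exact (mul_inv_eq_one.1 h1.symm)
      -- so `k t k⁻¹ = J t J` and `k (t e) = J (t e)`
      clear_value u v k g r
      have e9 : k (t e) = J (t e) := by
        have h1 : k * t = (J * t * J) * k := by
          rw [e8, ← hkt, ← e8]; group
        have h2 := congrArg (fun p : Perm Q => p e) h1
        rw [Perm.mul_apply, Perm.mul_apply, hke, Perm.mul_apply, Perm.mul_apply, h.Je] at h2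
        exact h2
      have e10 : g (t e) = e := by
        have h1 : t (J (t e)) = e := by
          have : r e = t (J (t (J e))) := by rw [hr]; rfl
          rw [h.Je, hre] at this
          exact this.symm
        rw [hgk, Perm.mul_apply, e9, h1]
      have e11 : J (t e) = t e := by
        apply g.injective
        rw [e10, hg]
        exact h.LJ _
      have e12 : k (t e) = t e := by rw [e9, e11]
      have e13 := h.comL hkG hke e12
      rw [← hg, hgk] at e13
      have e14 : k * t = t * k := by
        have : k * t * k = t * k * k := by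
          calc k * t * k = k * (t * k) := by group
            _ = t * k * k := e13
        exact mul_right_cancel this
      have e15 : J * t * J = t := by
        have h1 : k * t * k⁻¹ = t := by rw [e14]; group
        rw [h1] at hkt
        rw [← e8] at hkt
        exact hkt.symm
      have e16 : t = 1 := hinf t ht (by rw [e15]; exact ht)
      -- then `g = 1`
      have e17 : g = 1 := by rw [hg, e16, Perm.one_apply]; exact h.Le1
      -- all elements of `T` are trivial
      have e18 : ∀ s ∈ T, s = 1 := by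
        intro s hs
        apply hinf s hs
        have := hg2.1 s hs
        rw [e17] at this
        simpa using this
      apply hne
      rw [Subgroup.eq_bot_iff_forall]
      intro n hn
      obtain ⟨a, ha, b, hb, rfl⟩ := hdec n hn
      rw [e18 a ha, e18 b hb]
      simpa using h.JJ1
  -- the subgroup of elements normalising `T` and `T^J`
  have hinv : ∀ g : Perm Q, (∀ m ∈ T, g * m * g⁻¹ ∈ T) → ∀ m ∈ T, g⁻¹ * m * (g⁻¹)⁻¹ ∈ T := by
    have hpow : ∀ g : Perm Q, (∀ m ∈ T, g * m * g⁻¹ ∈ T) → ∀ k : ℕ, ∀ m ∈ T,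
        g ^ k * m * (g ^ k)⁻¹ ∈ T := by
      intro g hg k
      induction k with
      | zero => intro m hm; simpa using hm
      | succ k ih =>
        intro m hm
        have := hg _ (ih m hm)
        have e1 : g * (g ^ k * m * (g ^ k)⁻¹) * g⁻¹ = g ^ (k + 1) * m * (g ^ (k + 1))⁻¹ := by
          rw [pow_succ']; group
        rwa [e1] at this
    intro g hg m hm
    have h1 : g⁻¹ = g ^ (orderOf g - 1) := by
      have h2 : 0 < orderOf g := orderOf_pos g
      apply inv_eq_of_mul_eq_one_left
      rw [← pow_succ, Nat.sub_add_cancel h2, pow_orderOf_eq_one]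
    rw [h1]
    exact hpow g hg _ m hm
  intro g hg
  rw [h.gen] at hg
  induction hg using Subgroup.closure_induction with
  | mem x hx =>
    rcases hx with ⟨y, rfl⟩ | ⟨y, rfl⟩
    · exact (hL y).1
    · intro m hm
      have h1 := (hL y).2 m hm
      have e1 : J * (L y * (J * m * J) * (L y)⁻¹) * J =
          (J * L y * J) * m * (J * L y * J)⁻¹ := by
        rw [h.Jmulinv]; group
      rwa [e1] at h1
  | one => intro m hm; simpa using hm
  | mul x y _ _ hx hy =>
    intro m hm
    have := hx _ (hy m hm)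
    have e1 : x * (y * m * y⁻¹) * x⁻¹ = x * y * m * (x * y)⁻¹ := by group
    rwa [e1] at this
  | inv x _ hx => exact hinv x hx

end ALoop
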