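import Mathlib

set_option autoImplicit false

/-!
# Finite simple automorphic loops: working data (helper4, MP_52f71e_al)

A loop is given by its left translations `L x` (a permutation of `Q`; the product `x * y` is `L x y`).
`J` is the inversion `x ↦ x⁻¹`, `e` the identity element, `G` the multiplication group, and the inner
mappings are the elements of `G` that fix `e`. The right translation by `y` is `J * L (J y) * J`.
-/

namespace ALoop

open Equiv

variable {Q : Type*}

/-- `M` is normalised by every element of `G` -/
def Nm (G M : Subgroup (Perm Q)) : Prop := ∀ g ∈ G, ∀ m ∈ M, g * m * g⁻¹ ∈ M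

/-- an automorphic loop that is simple (`prim`) and not of exponent two (`Jne`), with its
multiplication group `G`, left translations `L`, inversion `J`, identity `e` -/
structure AL (G : Subgroup (Perm Q)) (L : Q → Perm Q) (J : Perm Q) (e : Q) : Prop where
  memL : ∀ x, L x ∈ G
  Le : ∀ x, L x e = x
  Je : J e = e
  JJ : ∀ x, J (J x) = x
  LJ : ∀ x, L x (J x) = e
  aaip : ∀ x y, J (L x y) = L (J y) (J x)
  equi : ∀ g ∈ G, g e = e → ∀ x, g * L x * g⁻¹ = L (g x)
  comJ : ∀ g ∈ G, g e = e → g * J = J * g
  JG : ∀ g ∈ G, J * g * J ∈ G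
  gen : G = Subgroup.closure (Set.range L ∪ Set.range (fun x => J * L x * J))
  prim : ∀ r : Q → Q → Prop, Equivalence r → (∀ g ∈ G, ∀ a b, r a b → r (g a) (g b)) →
    (∀ a b, r a b → a = b) ∨ (∀ a b, r a b)
  Jne : J ≠ 1

/-- the operation is associative -/
def Assoc (L : Q → Perm Q) : Prop := ∀ x y z, L (L x y) z = L x (L y z)

end ALoop
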