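import Pool.Agent.H4.Loop.Prim

set_option autoImplicit false

/-!
A minimal normal subgroup `N` of `G` has no proper direct factor that is invariant under `J`.
-/

namespace ALoop

open Equiv

variable {Q : Type*} {G : Subgroup (Perm Q)} {L : Q → Perm Q} {J : Perm Q} {e : Q}
  {N M M' : Subgroup (Perm Q)}

/-- `N = M M'` is a direct product of `J`-invariant subgroups -/
structure DD (G : Subgroup (Perm Q)) (J : Perm Q) (e : Q) (N M M' : Subgroup (Perm Q)) : Prop where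
  hNG : N ≤ G
  hN : Nm G N
  hcent : ∀ g ∈ G, (∀ n ∈ N, g * n = n * g) → g = 1
  hreg : ∃ n ∈ N, n e = e ∧ n ≠ 1
  hperf : N ≤ Subgroup.closure {c | ∃ a ∈ N, ∃ b ∈ N, c = a * b * a⁻¹ * b⁻¹}
  hM : M ≤ N
  hM' : M' ≤ N
  hcomm : ∀ m ∈ M, ∀ m' ∈ M', m * m' = m' * m
  hdec : ∀ n ∈ N, ∃ m ∈ M, ∃ m' ∈ M', n = m * m'
  hJM : ∀ m ∈ M, J * m * J ∈ M
  hJM' : ∀ m ∈ M', J * m * J ∈ M'

namespace DD

theorem symm (d : DD G J e N M M') : DD G J e N M' M where
  hNG := d.hNG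
  hN := d.hN
  hcent := d.hcent
  hreg := d.hreg
  hperf := d.hperf
  hM := d.hM'
  hM' := d.hM
  hcomm := fun m hm m' hm' => (d.hcomm m' hm' m hm).symm
  hdec := fun n hn => by
    obtain ⟨m, hm, m', hm', rfl⟩ := d.hdec n hn
    exact ⟨m', hm', m, hm, d.hcomm m hm m' hm'⟩
  hJM := d.hJM'
  hJM' := d.hJM

theorem inter (d : DD G J e N M M') {m : Perm Q} (h1 : m ∈ M) (h2 : m ∈ M') : m = 1 := by
  apply d.hcent m (d.hNG (d.hM h1))
  intro n hn
  obtain ⟨a, ha, b, hb, rfl⟩ := d.hdec n hn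
  have e1 := d.hcomm a ha m h2
  have e2 := d.hcomm m h1 b hb
  calc m * (a * b) = (m * a) * b := by group
    _ = a * (m * b) := by rw [← e1]; group
    _ = a * b * m := by rw [e2]; group

theorem uniq (d : DD G J e N M M') {a a' b b' : Perm Q} (ha : a ∈ M) (ha' : a' ∈ M')
    (hb : b ∈ M) (hb' : b' ∈ M') (hab : a * a' = b * b') : a = b ∧ a' = b' := by
  have h1 : b⁻¹ * a = b' * a'⁻¹ := by
    have : b⁻¹ * (a * a') * a'⁻¹ = b⁻¹ * (b * b') * a'⁻¹ := by rw [hab]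
    simpa [mul_assoc] using this
  have h2 := d.inter (M.mul_mem (M.inv_mem hb) ha)
    (by rw [h1]; exact M'.mul_mem hb' (M'.inv_mem ha'))
  have h3 : a = b := (inv_mul_eq_one.1 h2).symm
  subst h3
  exact ⟨rfl, mul_left_cancel hab⟩

theorem fixdec (h : AL G L J e) (d : DD G J e N M M') {m m' : Perm Q} (hm : m ∈ M)
    (hm' : m' ∈ M') (he : (m * m') e = e) : m e = e ∧ m' e = e := by
  have hg : m * m' ∈ G := d.hNG (N.mul_mem (d.hM hm) (d.hM' hm'))
  have h1 := h.comJ _ hg he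
  have h2 : (J * m * J) * (J * m' * J) = m * m' := by
    rw [← h.Jmul, ← h1, mul_assoc, h.JJ1, mul_one]
  obtain ⟨h3, h4⟩ := d.uniq (d.hJM m hm) (d.hJM' m' hm') hm hm' h2
  have hJ : ∀ k : Perm Q, J * k * J = k → k * J = J * k := by
    intro k hk
    calc k * J = (J * k * J) * J := by rw [hk]
      _ = J * k * (J * J) := by group
      _ = J * k := by rw [h.JJ1, mul_one]
  exact ⟨h.centJ (d.hNG (d.hM hm)) (hJ m h3), h.centJ (d.hNG (d.hM' hm')) (hJ m' h4)⟩

theorem perf (d : DD G J e N M M') {m : Perm Q} (hm : m ∈ M) :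
    m ∈ Subgroup.closure {c | ∃ a ∈ M, ∃ b ∈ M, c = a * b * a⁻¹ * b⁻¹} := by
  set D := Subgroup.closure {c | ∃ a ∈ M, ∃ b ∈ M, c = a * b * a⁻¹ * b⁻¹} with hD
  have hDM : D ≤ M := by
    rw [hD, Subgroup.closure_le]
    rintro c ⟨a, ha, b, hb, rfl⟩
    exact M.mul_mem (M.mul_mem (M.mul_mem ha hb) (M.inv_mem ha)) (M.inv_mem hb)
  have key : ∀ n ∈ Subgroup.closure {c | ∃ a ∈ N, ∃ b ∈ N, c = a * b * a⁻¹ * b⁻¹},
      ∃ a ∈ D, ∃ b ∈ M', n = a * b := by
    intro n hn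
    induction hn using Subgroup.closure_induction with
    | mem x hx =>
      obtain ⟨a, ha, b, hb, rfl⟩ := hx
      obtain ⟨a1, ha1, a2, ha2, rfl⟩ := d.hdec a ha
      obtain ⟨b1, hb1, b2, hb2, rfl⟩ := d.hdec b hb
      refine ⟨a1 * b1 * a1⁻¹ * b1⁻¹, Subgroup.subset_closure ⟨a1, ha1, b1, hb1, rfl⟩,
        a2 * b2 * a2⁻¹ * b2⁻¹, M'.mul_mem (M'.mul_mem (M'.mul_mem ha2 hb2) (M'.inv_mem ha2))
          (M'.inv_mem hb2), ?_⟩
      have c1 : Commute a2 b1 := (d.hcomm b1 hb1 a2 ha2).symm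
      have c2 : Commute a2 a1 := (d.hcomm a1 ha1 a2 ha2).symm
      have c3 : Commute b2 a1 := (d.hcomm a1 ha1 b2 hb2).symm
      have c4 : Commute b2 b1 := (d.hcomm b1 hb1 b2 hb2).symm
      have c5 : Commute (a2 * b2 * a2⁻¹) (a1⁻¹) :=
        ((c2.mul_left c3).mul_left c2.inv_left).inv_right
      have c6 : Commute (a2 * b2 * a2⁻¹ * b2⁻¹) (b1⁻¹) :=
        (((c1.mul_left c4).mul_left c1.inv_left).mul_left c4.inv_left).inv_right
      calc a1 * a2 * (b1 * b2) * (a1 * a2)⁻¹ * (b1 * b2)⁻¹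
          = a1 * (a2 * b1) * (b2 * a2⁻¹ * a1⁻¹) * b2⁻¹ * b1⁻¹ := by group
        _ = a1 * b1 * ((a2 * b2 * a2⁻¹) * a1⁻¹) * b2⁻¹ * b1⁻¹ := by rw [c1.eq]; group
        _ = a1 * b1 * a1⁻¹ * ((a2 * b2 * a2⁻¹ * b2⁻¹) * b1⁻¹) := by rw [c5.eq]; group
        _ = a1 * b1 * a1⁻¹ * b1⁻¹ * (a2 * b2 * a2⁻¹ * b2⁻¹) := by rw [c6.eq]; group
    | one => exact ⟨1, D.one_mem, 1, M'.one_mem, by simp⟩
    | mul x y _ _ hx hy =>
      obtain ⟨a, ha, b, hb, rfl⟩ := hx
      obtain ⟨a', ha', b', hb', rfl⟩ := hy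
      refine ⟨a * a', D.mul_mem ha ha', b * b', M'.mul_mem hb hb', ?_⟩
      have := d.hcomm a' (hDM ha') b hb
      calc a * b * (a' * b') = a * (b * a') * b' := by group
        _ = a * a' * (b * b') := by rw [← this]; group
    | inv x _ hx =>
      obtain ⟨a, ha, b, hb, rfl⟩ := hx
      refine ⟨a⁻¹, D.inv_mem ha, b⁻¹, M'.inv_mem hb, ?_⟩
      rw [d.hcomm a (hDM ha) b hb]; group
  obtain ⟨a, ha, b, hb, hab⟩ := key m (d.hperf (d.hM hm))
  have := d.uniq hm M'.one_mem (hDM ha) hb (by rw [mul_one]; exact hab)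
  rw [this.1]; exact ha

/-- elements of `N` that commute with `M' ∩ H` -/
theorem cen (h : AL G L J e) (d : DD G J e N M M') {c : Perm Q} (hc : c ∈ N)
    (hcr : ∀ r ∈ M', r e = e → c * r = r * c) :
    ∃ m ∈ M, ∃ z ∈ M', z e = e ∧ (∀ r ∈ M', r e = e → z * r = r * z) ∧ c = m * z := by
  obtain ⟨m, hm, z, hz, rfl⟩ := d.hdec c hc
  have hzr : ∀ r ∈ M', r e = e → z * r = r * z := by
    intro r hr hre
    have h1 := hcr r hr hre
    have h2 := d.hcomm m hm r hr
    have h3 : m * (z * r) = m * (r * z) := by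
      calc m * (z * r) = m * z * r := by group
        _ = r * (m * z) := h1
        _ = (r * m) * z := by group
        _ = m * (r * z) := by rw [← h2]; group
    exact mul_left_cancel h3
  refine ⟨m, hm, z, hz, ?_, hzr, rfl⟩
  -- the subgroup of elements of `N` fixing `e`
  let S : Subgroup (Perm Q) :=
    { carrier := {s | s ∈ N ∧ s e = e}
      mul_mem' := by
        rintro a b ⟨ha, ha'⟩ ⟨hb, hb'⟩
        exact ⟨N.mul_mem ha hb, by rw [Perm.mul_apply, hb', ha']⟩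
      one_mem' := ⟨N.one_mem, rfl⟩
      inv_mem' := by
        rintro a ⟨ha, ha'⟩
        exact ⟨N.inv_mem ha, by rw [Perm.inv_eq_iff_eq]; exact ha'.symm⟩ }
  have hcomS : ∀ s ∈ S, z * s = s * z := by
    rintro s ⟨hs, hse⟩
    obtain ⟨a, ha, b, hb, rfl⟩ := d.hdec s hs
    obtain ⟨h1, h2⟩ := d.fixdec h ha hb hse
    have h3 := hzr b hb h2
    have h4 := d.hcomm a ha z hz
    calc z * (a * b) = (z * a) * b := by group
      _ = a * (z * b) := by rw [← h4]; group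
      _ = a * b * z := by rw [h3]; group
  apply h.norm_fix (S := S) (fun s hs => hs.2)
  · rintro g hg hge s ⟨hs, hse⟩
    refine ⟨d.hN g hg s hs, ?_⟩
    have : g⁻¹ e = e := by rw [Perm.inv_eq_iff_eq]; exact hge.symm
    rw [Perm.mul_apply, Perm.mul_apply, this, hse, hge]
  · intro hS
    obtain ⟨n, hn, hne, hn1⟩ := d.hreg
    apply hn1
    have : n ∈ S := ⟨hn, hne⟩
    rw [hS] at this
    exact Subgroup.mem_bot.1 this
  · exact d.hNG (d.hM' hz)
  · intro s
    constructor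
    · intro hs
      rw [hcomS s hs]
      simpa using hs
    · intro hs
      have := hcomS _ hs
      have h5 : s = z * s * z⁻¹ := by
        have h6 : z * (z * s * z⁻¹) * z⁻¹ = z * s * z⁻¹ * z * z⁻¹ := by rw [this]
        have h7 : z * s * z⁻¹ = s := by
          have : z⁻¹ * (z * (z * s * z⁻¹) * z⁻¹) * z = z⁻¹ * (z * s * z⁻¹ * z * z⁻¹) * z := by
            rw [h6]
          have h8 : z⁻¹ * (z * (z * s * z⁻¹) * z⁻¹) * z = z * s * z⁻¹ := by group
          have h9 : z⁻¹ * (z * s * z⁻¹ * z * z⁻¹) * z = s := by group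
          rw [h8, h9] at this
          exact this
        exact h7.symm
      rw [h5]; exact hs

theorem key (h : AL G L J e) (d : DD G J e N M M') {g : Perm Q} (hg : g ∈ G)
    (hgr : ∀ r ∈ M', r e = e → g * r = r * g) {m : Perm Q} (hm : m ∈ M) :
    g * m * g⁻¹ ∈ M := by
  have hc : ∀ k ∈ M, ∃ m1 ∈ M, ∃ z ∈ M', z e = e ∧ (∀ r ∈ M', r e = e → z * r = r * z) ∧
      g * k * g⁻¹ = m1 * z := by
    intro k hk
    apply d.cen h (d.hN g hg k (d.hM hk))
    intro r hr hre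
    have h1 := hgr r hr hre
    have h2 := d.hcomm k hk r hr
    have h3 : g⁻¹ * r = r * g⁻¹ := by
      calc g⁻¹ * r = g⁻¹ * (r * g) * g⁻¹ := by group
        _ = g⁻¹ * (g * r) * g⁻¹ := by rw [h1]
        _ = r * g⁻¹ := by group
    calc g * k * g⁻¹ * r = g * k * (g⁻¹ * r) := by group
      _ = g * (k * r) * g⁻¹ := by rw [h3]; group
      _ = (g * r) * k * g⁻¹ := by rw [h2]; group
      _ = r * (g * k * g⁻¹) := by rw [h1]; group
  have hmem := d.perf hm
  induction hmem using Subgroup.closure_induction with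
  | mem x hx =>
    obtain ⟨a, ha, b, hb, rfl⟩ := hx
    obtain ⟨a1, ha1, z1, hz1, hz1e, hz1c, h1⟩ := hc a ha
    obtain ⟨b1, hb1, z2, hz2, hz2e, hz2c, h2⟩ := hc b hb
    have e1 : g * (a * b * a⁻¹ * b⁻¹) * g⁻¹ =
        (g * a * g⁻¹) * (g * b * g⁻¹) * (g * a * g⁻¹)⁻¹ * (g * b * g⁻¹)⁻¹ := by group
    rw [e1, h1, h2]
    have c1 : Commute z1 b1 := (d.hcomm b1 hb1 z1 hz1).symm
    have c2 : Commute z1 z2 := hz1c z2 hz2 hz2e
    have c3 : Commute z2 a1 := (d.hcomm a1 ha1 z2 hz2).symm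
    have c4 : Commute z1 a1 := (d.hcomm a1 ha1 z1 hz1).symm
    have c5 : Commute z2 b1 := (d.hcomm b1 hb1 z2 hz2).symm
    have e2 : a1 * z1 * (b1 * z2) * (a1 * z1)⁻¹ * (b1 * z2)⁻¹ = a1 * b1 * a1⁻¹ * b1⁻¹ := by
      calc a1 * z1 * (b1 * z2) * (a1 * z1)⁻¹ * (b1 * z2)⁻¹
          = a1 * (z1 * b1) * z2 * z1⁻¹ * a1⁻¹ * z2⁻¹ * b1⁻¹ := by group
        _ = a1 * b1 * (z1 * z2) * z1⁻¹ * a1⁻¹ * z2⁻¹ * b1⁻¹ := by rw [c1.eq]; group
        _ = a1 * b1 * (z2 * a1⁻¹) * z2⁻¹ * b1⁻¹ := by rw [c2.eq]; group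
        _ = a1 * b1 * a1⁻¹ * b1⁻¹ := by rw [c3.inv_right.eq]; group
    rw [e2]
    exact M.mul_mem (M.mul_mem (M.mul_mem ha1 hb1) (M.inv_mem ha1)) (M.inv_mem hb1)
  | one => simpa using M.one_mem
  | mul x y hx hy hx' hy' =>
    have hDM : Subgroup.closure {c | ∃ a ∈ M, ∃ b ∈ M, c = a * b * a⁻¹ * b⁻¹} ≤ M := by
      rw [Subgroup.closure_le]
      rintro c ⟨a, ha, b, hb, rfl⟩
      exact M.mul_mem (M.mul_mem (M.mul_mem ha hb) (M.inv_mem ha)) (M.inv_mem hb)
    have e1 : g * (x * y) * g⁻¹ = (g * x * g⁻¹) * (g * y * g⁻¹) := by group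
    rw [e1]
    exact M.mul_mem (hx' (hDM hx)) (hy' (hDM hy))
  | inv x hx hx' =>
    have hDM : Subgroup.closure {c | ∃ a ∈ M, ∃ b ∈ M, c = a * b * a⁻¹ * b⁻¹} ≤ M := by
      rw [Subgroup.closure_le]
      rintro c ⟨a, ha, b, hb, rfl⟩
      exact M.mul_mem (M.mul_mem (M.mul_mem ha hb) (M.inv_mem ha)) (M.inv_mem hb)
    have e1 : g * x⁻¹ * g⁻¹ = (g * x * g⁻¹)⁻¹ := by group
    rw [e1]
    exact M.inv_mem (hx' (hDM hx))

theorem key' (h : AL G L J e) (d : DD G J e N M M') {g : Perm Q} (hg : g ∈ G)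
    (hgr : ∀ r ∈ M', r e = e → g * r = r * g) {m : Perm Q} (hm : m ∈ M') :
    g * m * g⁻¹ ∈ M' := by
  have hgr' : ∀ r ∈ M', r e = e → g⁻¹ * r = r * g⁻¹ := by
    intro r hr hre
    have h1 := hgr r hr hre
    calc g⁻¹ * r = g⁻¹ * (r * g) * g⁻¹ := by group
      _ = g⁻¹ * (g * r) * g⁻¹ := by rw [h1]
      _ = r * g⁻¹ := by group
  have hk : ∀ k ∈ M, g⁻¹ * k * g ∈ M := by
    intro k hk
    have := d.key h (G.inv_mem hg) hgr' hk
    simpa using this
  have hN : g * m * g⁻¹ ∈ N := d.hN g hg m (d.hM' hm)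
  obtain ⟨a, ha, b, hb, hab⟩ := d.hdec _ hN
  have h1 : ∀ k ∈ M, k * a = a * k := by
    intro k hk1
    have h2 := d.hcomm _ (hk k hk1) m hm
    have h3 : k * (g * m * g⁻¹) = (g * m * g⁻¹) * k := by
      calc k * (g * m * g⁻¹) = g * ((g⁻¹ * k * g) * m) * g⁻¹ := by group
        _ = g * (m * (g⁻¹ * k * g)) * g⁻¹ := by rw [h2]
        _ = (g * m * g⁻¹) * k := by group
    rw [hab] at h3
    have h4 := d.hcomm k hk1 b hb
    have h5 : k * a * b = a * k * b := by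
      calc k * a * b = k * (a * b) := by group
        _ = a * b * k := h3
        _ = a * (b * k) := by group
        _ = a * k * b := by rw [← h4]; group
    exact mul_right_cancel h5
  have h6 : a = 1 := by
    apply d.hcent a (d.hNG (d.hM ha))
    intro n hn
    obtain ⟨c, hc, c', hc', rfl⟩ := d.hdec n hn
    have e1 := h1 c hc
    have e2 := d.hcomm a ha c' hc'
    calc a * (c * c') = (a * c) * c' := by group
      _ = c * (a * c') := by rw [← e1]; group
      _ = c * c' * a := by rw [e2]; group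
  rw [hab, h6, one_mul]
  exact hb

/-- `M' ∩ H` commutes with the left translations by elements of the orbit of `M` -/
theorem La (h : AL G L J e) (d : DD G J e N M M') {m : Perm Q} (hm : m ∈ M) {r : Perm Q}
    (hr : r ∈ M') (hre : r e = e) : L (m e) * r = r * L (m e) := by
  have h1 : r (m e) = m e := by
    have := congrArg (fun p : Perm Q => p e) (d.hcomm m hm r hr)
    simp only [Perm.mul_apply] at this
    rw [← this, hre]
  exact (h.comL (d.hNG (d.hM' hr)) hre h1).symm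

theorem Ra (h : AL G L J e) (d : DD G J e N M M') {m : Perm Q} (hm : m ∈ M) {r : Perm Q}
    (hr : r ∈ M') (hre : r e = e) :
    (J * L (J (m e)) * J) * r = r * (J * L (J (m e)) * J) := by
  have h1 : r (m e) = m e := by
    have := congrArg (fun p : Perm Q => p e) (d.hcomm m hm r hr)
    simp only [Perm.mul_apply] at this
    rw [← this, hre]
  exact (h.comR (d.hNG (d.hM' hr)) hre h1).symm

theorem R_e (h : AL G L J e) (y : Q) : (J * L (J y) * J) e = y := by
  rw [h.R_apply, h.Le1, Perm.one_apply]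

/-- (6) of the plan -/
theorem six (h : AL G L J e) (d : DD G J e N M M') {m m' : Perm Q} (hm : m ∈ M)
    (hm' : m' ∈ M') :
    (L (m e) * m' * (L (m e))⁻¹) e = m' e ∧
    ((J * L (J (m' e)) * J) * m * (J * L (J (m' e)) * J)⁻¹) e = m e := by
  have hμ' : L (m e) * m' * (L (m e))⁻¹ ∈ M' :=
    d.key' h (h.memL _) (fun r hr hre => d.La h hm hr hre) hm'
  have hμ : (J * L (J (m' e)) * J) * m * (J * L (J (m' e)) * J)⁻¹ ∈ M :=
    d.symm.key' h (h.memR _) (fun r hr hre => d.symm.Ra h hm' hr hre) hm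
  set μ' := L (m e) * m' * (L (m e))⁻¹ with hμ'd
  set μ := (J * L (J (m' e)) * J) * m * (J * L (J (m' e)) * J)⁻¹ with hμd
  clear_value μ' μ
  have e1 : L (m e) (m' e) = (m * μ') e := by
    have : L (m e) * m' = μ' * L (m e) := by rw [hμ'd]; group
    have h2 := congrArg (fun p : Perm Q => p e) this
    simp only [Perm.mul_apply] at h2
    rw [h2, h.Le, d.hcomm m hm μ' hμ', Perm.mul_apply]
  have e2 : L (m e) (m' e) = (μ * m') e := by
    have hR := R_e h (m' e)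
    have hR2 := h.R_apply (m e) (m' e)
    have : (J * L (J (m' e)) * J) * m = μ * (J * L (J (m' e)) * J) := by rw [hμd]; group
    generalize J * L (J (m' e)) * J = ρ at this hR hR2
    have h2 := congrArg (fun p : Perm Q => p e) this
    simp only [Perm.mul_apply] at h2
    rw [hR, hR2] at h2
    rw [h2, Perm.mul_apply]
  have e3 : ((μ⁻¹ * m) * (m'⁻¹ * μ')) e = e := by
    have h3 : (μ⁻¹ * m) * (m'⁻¹ * μ') = (μ * m')⁻¹ * (m * μ') := by
      have h4 := d.hcomm (μ⁻¹ * m) (M.mul_mem (M.inv_mem hμ) hm) m'⁻¹ (M'.inv_mem hm')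
      calc (μ⁻¹ * m) * (m'⁻¹ * μ') = (μ⁻¹ * m) * m'⁻¹ * μ' := by group
        _ = (μ * m')⁻¹ * (m * μ') := by rw [h4]; group
    rw [h3, Perm.mul_apply, Perm.inv_eq_iff_eq, ← e1, ← e2]
  obtain ⟨h5, h6⟩ := d.fixdec h (M.mul_mem (M.inv_mem hμ) hm) (M'.mul_mem (M'.inv_mem hm') hμ') e3
  rw [Perm.mul_apply, Perm.inv_eq_iff_eq] at h5 h6
  exact ⟨h6, h5.symm⟩

/-- (7a) -/
theorem seven (h : AL G L J e) (d : DD G J e N M M') {m m' n : Perm Q} (hm : m ∈ M)
    (hm' : m' ∈ M') (hn : n ∈ M) :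
    L (m e) (m' (n e)) = m' (L (m e) (n e)) := by
  have hν : L (m e) * n * (L (m e))⁻¹ ∈ M :=
    d.key h (h.memL _) (fun r hr hre => d.La h hm hr hre) hn
  have h6 := (d.six h hm hm').1
  have hμ' : L (m e) * m' * (L (m e))⁻¹ ∈ M' :=
    d.key' h (h.memL _) (fun r hr hre => d.La h hm hr hre) hm'
  set g := L (m e) with hg
  have hge : g e = m e := h.Le _
  set ν := g * n * g⁻¹ with hνd
  set μ' := g * m' * g⁻¹ with hμ'd
  clear_value ν μ' g
  have e1 : g (n e) = (ν * m) e := by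
    have : g * n = ν * g := by rw [hνd]; group
    have h2 := congrArg (fun p : Perm Q => p e) this
    simp only [Perm.mul_apply] at h2
    rw [h2, hge, Perm.mul_apply]
  have e2 : g (m' (n e)) = (μ' * ν * m) e := by
    have : g * (m' * n) = (μ' * ν) * g := by rw [hνd, hμ'd]; group
    have h2 := congrArg (fun p : Perm Q => p e) this
    simp only [Perm.mul_apply] at h2
    rw [h2, hge, Perm.mul_apply, Perm.mul_apply]
  have h3 := d.hcomm (ν * m) (M.mul_mem hν hm) μ' hμ'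
  have h4 := d.hcomm (ν * m) (M.mul_mem hν hm) m' hm'
  rw [e2, e1, mul_assoc, ← h3, Perm.mul_apply, h6, ← Perm.mul_apply, h4, Perm.mul_apply]

/-- (7b) -/
theorem seven' (h : AL G L J e) (d : DD G J e N M M') {m m' n : Perm Q} (hm : m ∈ M)
    (hm' : m' ∈ M') (hn : n ∈ M) :
    (J * L (J (m e)) * J) (m' (n e)) = m' ((J * L (J (m e)) * J) (n e)) := by
  have hν : (J * L (J (m e)) * J) * n * (J * L (J (m e)) * J)⁻¹ ∈ M :=
    d.key h (h.memR _) (fun r hr hre => d.Ra h hm hr hre) hn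
  have h6 := (d.symm.six h hm' hm).2
  have hμ' : (J * L (J (m e)) * J) * m' * (J * L (J (m e)) * J)⁻¹ ∈ M' :=
    d.key' h (h.memR _) (fun r hr hre => d.Ra h hm hr hre) hm'
  have hge : (J * L (J (m e)) * J) e = m e := R_e h _
  set g := (J * L (J (m e)) * J) with hg
  set ν := g * n * g⁻¹ with hνd
  set μ' := g * m' * g⁻¹ with hμ'd
  clear_value ν μ' g
  have e1 : g (n e) = (ν * m) e := by
    have : g * n = ν * g := by rw [hνd]; group
    have h2 := congrArg (fun p : Perm Q => p e) this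
    simp only [Perm.mul_apply] at h2
    rw [h2, hge, Perm.mul_apply]
  have e2 : g (m' (n e)) = (μ' * ν * m) e := by
    have : g * (m' * n) = (μ' * ν) * g := by rw [hνd, hμ'd]; group
    have h2 := congrArg (fun p : Perm Q => p e) this
    simp only [Perm.mul_apply] at h2
    rw [h2, hge, Perm.mul_apply, Perm.mul_apply]
  have h3 := d.hcomm (ν * m) (M.mul_mem hν hm) μ' hμ'
  have h4 := d.hcomm (ν * m) (M.mul_mem hν hm) m' hm'
  rw [e2, e1, mul_assoc, ← h3, Perm.mul_apply, h6, ← Perm.mul_apply, h4, Perm.mul_apply]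

theorem Lmul (h : AL G L J e) (d : DD G J e N M M') {m m' : Perm Q} (hm : m ∈ M)
    (hm' : m' ∈ M') : L (m e) (m' e) = m' (m e) := by
  have := d.seven h hm hm' M.one_mem
  rw [Perm.one_apply, h.Le] at this
  exact this

theorem Lprod (h : AL G L J e) (d : DD G J e N M M') {m m' : Perm Q} (hm : m ∈ M)
    (hm' : m' ∈ M') : L (m' (m e)) = L (m e) * L (m' e) := by
  have hz : (L (m e) * L (m' e)) e = m' (m e) := by
    rw [Perm.mul_apply, h.Le, d.Lmul h hm hm']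
  have hG : L (m e) * L (m' e) ∈ G := G.mul_mem (h.memL _) (h.memL _)
  obtain ⟨h1, h2⟩ := h.fix_part hG
  rw [hz] at h1 h2
  have hcom : m' (m e) = m (m' e) := by
    rw [← Perm.mul_apply, ← Perm.mul_apply, d.hcomm m hm m' hm']
  set φ := (L (m' (m e)))⁻¹ * (L (m e) * L (m' e)) with hφ
  have hX : ∀ n ∈ M, φ (n e) = n e := by
    intro n hn
    rw [hφ, Perm.mul_apply, Perm.inv_eq_iff_eq, Perm.mul_apply]
    have e1 : L (m' e) (n e) = m' (n e) := by
      have h7 := d.symm.seven h hm' hn M'.one_mem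
      rw [Perm.one_apply, h.Le] at h7
      rw [h7, ← Perm.mul_apply, ← Perm.mul_apply, d.hcomm n hn m' hm']
    have e2 : L (m' (m e)) (n e) = m' (L (m e) (n e)) := by
      rw [← h.R_apply (m' (m e)) (n e), d.seven' h hn hm' hm, h.R_apply]
    rw [e1, d.seven h hm hm' hn, e2]
  have hX' : ∀ n ∈ M', φ (n e) = n e := by
    intro n hn
    rw [hφ, Perm.mul_apply, Perm.inv_eq_iff_eq, Perm.mul_apply]
    have hν : L (m' e) * n * (L (m' e))⁻¹ ∈ M' :=
      d.symm.key h (h.memL _) (fun r hr hre => d.symm.La h hm' hr hre) hn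
    set ν := L (m' e) * n * (L (m' e))⁻¹ with hνd
    clear_value ν
    have e1 : L (m' e) (n e) = (ν * m') e := by
      have : L (m' e) * n = ν * L (m' e) := by rw [hνd]; group
      have h2 := congrArg (fun p : Perm Q => p e) this
      simp only [Perm.mul_apply] at h2
      rw [h2, h.Le, Perm.mul_apply]
    have hk : ν * m' ∈ M' := M'.mul_mem hν hm'
    have e2 : L (m' (m e)) (n e) = m ((ν * m') e) := by
      rw [hcom, ← h.R_apply (m (m' e)) (n e), d.symm.seven' h hn hm hm', h.R_apply, e1]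
    rw [e2, e1, d.Lmul h hm hk, ← Perm.mul_apply, ← Perm.mul_apply, d.hcomm m hm _ hk]
  have hφ1 : φ = 1 := by
    ext q
    obtain ⟨n, hn, hne, hn1⟩ := d.hreg
    have hNbot : N ≠ ⊥ := by
      rintro rfl
      exact hn1 (Subgroup.mem_bot.1 hn)
    obtain ⟨k, hk, hkq⟩ := h.trans d.hN hNbot e q
    obtain ⟨a, ha, b, hb, rfl⟩ := d.hdec k hk
    have h3 : q = L (a e) (b e) := by
      rw [d.Lmul h ha hb, ← hkq, ← Perm.mul_apply, d.hcomm a ha b hb]
    rw [h3, h.aut h1 h2, hX a ha, hX' b hb, Perm.one_apply]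
  have h5 : L (m e) * L (m' e) = L (m' (m e)) * φ := by rw [hφ]; group
  rw [h5, hφ1, mul_one]

end DD

/-- invariance under the generators is enough -/
theorem nm_of_gen [Finite Q] (h : AL G L J e) {M : Subgroup (Perm Q)}
    (hL : ∀ x, ∀ m ∈ M, L x * m * (L x)⁻¹ ∈ M)
    (hJ : ∀ m ∈ M, J * m * J ∈ M) : Nm G M := by
  classical
  have hpow : ∀ g : Perm Q, (∀ m ∈ M, g * m * g⁻¹ ∈ M) → ∀ k : ℕ, ∀ m ∈ M,
      g ^ k * m * (g ^ k)⁻¹ ∈ M := by
    intro g hg k
    induction k with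
    | zero => intro m hm; simpa using hm
    | succ k ih =>
      intro m hm
      have := hg _ (ih m hm)
      have e1 : g * (g ^ k * m * (g ^ k)⁻¹) * g⁻¹ = g ^ (k + 1) * m * (g ^ (k + 1))⁻¹ := by
        rw [pow_succ']; group
      rwa [e1] at this
  have hinv : ∀ g : Perm Q, (∀ m ∈ M, g * m * g⁻¹ ∈ M) → ∀ m ∈ M, g⁻¹ * m * (g⁻¹)⁻¹ ∈ M := by
    intro g hg m hm
    have h1 : g⁻¹ = g ^ (orderOf g - 1) := by
      have h2 : 0 < orderOf g := orderOf_pos g
      apply inv_eq_of_mul_eq_one_left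
      rw [← pow_succ, Nat.sub_add_cancel h2, pow_orderOf_eq_one]
    rw [h1]
    exact hpow g hg _ m hm
  intro g hg
  rw [h.gen] at hg
  induction hg using Subgroup.closure_induction with
  | mem x hx =>
    rcases hx with ⟨y, rfl⟩ | ⟨y, rfl⟩
    · exact hL y
    · intro m hm
      have h1 := hL y _ (hJ m hm)
      have h2 := hJ _ h1
      have e1 : J * (L y * (J * m * J) * (L y)⁻¹) * J =
          (J * L y * J) * m * (J * L y * J)⁻¹ := by
        rw [h.Jmulinv]; group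
      rwa [e1] at h2
  | one => intro m hm; simpa using hm
  | mul x y _ _ hx hy =>
    intro m hm
    have := hx _ (hy m hm)
    have e1 : x * (y * m * y⁻¹) * x⁻¹ = x * y * m * (x * y)⁻¹ := by group
    rwa [e1] at this
  | inv x _ hx => exact hinv x hx

/-- **direct product lemma** -/
theorem DD.normal [Finite Q] (h : AL G L J e) (d : DD G J e N M M') : Nm G M := by
  apply nm_of_gen h _ d.hJM
  intro z m hm
  obtain ⟨n, hn, hne, hn1⟩ := d.hreg
  have hNbot : N ≠ ⊥ := by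
    rintro rfl
    exact hn1 (Subgroup.mem_bot.1 hn)
  obtain ⟨k, hk, hkq⟩ := h.trans d.hN hNbot e z
  obtain ⟨a, ha, b, hb, rfl⟩ := d.hdec k hk
  have h1 : z = b (a e) := by
    rw [← hkq, d.hcomm a ha b hb, Perm.mul_apply]
  rw [h1, d.Lprod h ha hb]
  have h2 : L (b e) * m * (L (b e))⁻¹ ∈ M :=
    d.symm.key' h (h.memL _) (fun r hr hre => d.symm.La h hb hr hre) hm
  have h3 : L (a e) * (L (b e) * m * (L (b e))⁻¹) * (L (a e))⁻¹ ∈ M :=
    d.key h (h.memL _) (fun r hr hre => d.La h ha hr hre) h2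
  have e1 : L (a e) * (L (b e) * m * (L (b e))⁻¹) * (L (a e))⁻¹ =
      L (a e) * L (b e) * m * (L (a e) * L (b e))⁻¹ := by group
  rwa [e1] at h3

end ALoop
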