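import Pool.Agent.H4.Loop.Defs

set_option autoImplicit false

namespace ALoop

open Equiv

variable {Q : Type*} {G : Subgroup (Perm Q)} {L : Q → Perm Q} {J : Perm Q} {e : Q}

namespace AL

theorem JJ1 (h : AL G L J e) : J * J = 1 := by
  ext x; simpa using h.JJ x

theorem Jinv (h : AL G L J e) : J⁻¹ = J := inv_eq_of_mul_eq_one_left h.JJ1

theorem JconjJ (h : AL G L J e) (g : Perm Q) : J * (J * g * J) * J = g := by
  have h1 := h.JJ1
  calc J * (J * g * J) * J = (J * J) * g * (J * J) := by group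
    _ = g := by rw [h1]; simp

/-- right translations: `R_y = J L_{J y} J` -/
theorem R_apply (h : AL G L J e) (x y : Q) : (J * L (J y) * J) x = L x y := by
  have := h.aaip (J y) (J x)
  rw [h.JJ, h.JJ] at this
  simpa using this

theorem Jmul (h : AL G L J e) (a b : Perm Q) : J * (a * b) * J = (J * a * J) * (J * b * J) := by
  have h1 := h.JJ1
  calc J * (a * b) * J = J * a * 1 * b * J := by group
    _ = J * a * (J * J) * b * J := by rw [h1]
    _ = (J * a * J) * (J * b * J) := by group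

theorem Jmulinv (h : AL G L J e) (a : Perm Q) : (J * a * J)⁻¹ = J * a⁻¹ * J := by
  have h1 := h.Jinv
  rw [mul_inv_rev, mul_inv_rev, h1]; group

theorem memR (h : AL G L J e) (y : Q) : J * L (J y) * J ∈ G := h.JG _ (h.memL _)

theorem Le1 (h : AL G L J e) : L e = 1 := by
  ext x
  have := h.aaip (J x) e
  rw [h.Le, h.JJ, h.Je] at this
  simpa using this.symm

theorem LJ' (h : AL G L J e) (x : Q) : L (J x) x = e := by
  have := h.LJ (J x)
  rwa [h.JJ] at this

/-- `G`-equivariant maps are injective or constant -/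
theorem prim_map (h : AL G L J e) {α : Type*} (f : Q → α)
    (hf : ∀ g ∈ G, ∀ a b, f a = f b → f (g a) = f (g b)) :
    (∀ a b, f a = f b → a = b) ∨ (∀ a b, f a = f b) :=
  h.prim (fun a b => f a = f b) ⟨fun _ => rfl, fun h => h.symm, fun h k => h.trans k⟩ hf

/-- the elements of `G` that fix `e` -/
theorem fix_part (h : AL G L J e) {g : Perm Q} (hg : g ∈ G) :
    (L (g e))⁻¹ * g ∈ G ∧ ((L (g e))⁻¹ * g) e = e := by
  refine ⟨G.mul_mem (G.inv_mem (h.memL _)) hg, ?_⟩
  rw [Perm.mul_apply, Perm.inv_eq_iff_eq]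
  exact (h.Le _).symm

/-- if `g ∈ G` fixes `e` and `x` then it commutes with `L x` -/
theorem comL (h : AL G L J e) {g : Perm Q} (hg : g ∈ G) (he : g e = e) {x : Q} (hx : g x = x) :
    g * L x = L x * g := by
  have := h.equi g hg he x
  rw [hx] at this
  rw [mul_inv_eq_iff_eq_mul] at this
  exact this

/-- if `g ∈ G` fixes `e` and `y` then it commutes with the right translation by `y` -/
theorem comR (h : AL G L J e) {g : Perm Q} (hg : g ∈ G) (he : g e = e) {y : Q} (hy : g y = y) :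
    g * (J * L (J y) * J) = (J * L (J y) * J) * g := by
  have hJ := h.comJ g hg he
  have h1 : g (J y) = J y := by
    have := congrArg (fun p : Perm Q => p y) hJ
    simp only [Perm.mul_apply] at this
    rw [this, hy]
  have h2 := h.comL hg he h1
  calc g * (J * L (J y) * J) = (g * J) * L (J y) * J := by group
    _ = J * (g * L (J y)) * J := by rw [hJ]; group
    _ = J * L (J y) * (g * J) := by rw [h2]; group
    _ = (J * L (J y) * J) * g := by rw [hJ]; group

theorem aut (h : AL G L J e) {g : Perm Q} (hg : g ∈ G) (he : g e = e) (x y : Q) :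
    g (L x y) = L (g x) (g y) := by
  have := h.equi g hg he x
  rw [mul_inv_eq_iff_eq_mul] at this
  have := congrArg (fun p : Perm Q => p y) this
  simpa using this

/-- `C_G(J)` fixes `e` -/
theorem centJ (h : AL G L J e) {g : Perm Q} (hg : g ∈ G) (hJ : g * J = J * g) : g e = e := by
  have key := h.prim_map (fun a => L a * J * (L a)⁻¹) (by
    intro k hk a b hab
    beta_reduce at hab ⊢
    have hkk : ∀ c : Q, L (k c) * J * (L (k c))⁻¹ = k * (L c * J * (L c)⁻¹) * k⁻¹ := by
      intro c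
      have hgc : k * L c ∈ G := G.mul_mem hk (h.memL c)
      have hv : (k * L c) e = k c := by rw [Perm.mul_apply, h.Le]
      obtain ⟨h1, h2⟩ := h.fix_part hgc
      rw [hv] at h1 h2
      have h3 := h.comJ _ h1 h2
      have h4 : k * L c = L (k c) * ((L (k c))⁻¹ * (k * L c)) := by group
      set u := (L (k c))⁻¹ * (k * L c) with hu
      calc L (k c) * J * (L (k c))⁻¹ = L (k c) * (J * u) * u⁻¹ * (L (k c))⁻¹ := by group
        _ = (L (k c) * u) * J * (L (k c) * u)⁻¹ := by rw [← h3]; group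
        _ = (k * L c) * J * (k * L c)⁻¹ := by rw [← h4]
        _ = k * (L c * J * (L c)⁻¹) * k⁻¹ := by group
    rw [hkk a, hkk b, hab])
  rcases key with hk | hk
  · apply hk
    beta_reduce
    have hv := h.fix_part hg
    have h3 := h.comJ _ hv.1 hv.2
    have h4 : L (g e) * ((L (g e))⁻¹ * g) = g := by group
    set u := (L (g e))⁻¹ * g with hu
    calc L (g e) * J * (L (g e))⁻¹ = L (g e) * (J * u) * u⁻¹ * (L (g e))⁻¹ := by group
      _ = (L (g e) * u) * J * (L (g e) * u)⁻¹ := by rw [← h3]; group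
      _ = g * J * g⁻¹ := by rw [h4]
      _ = J := by rw [hJ]; group
      _ = L e * J * (L e)⁻¹ := by rw [h.Le1]; simp
  · exfalso
    apply h.Jne
    ext x
    have h1 := hk x e
    beta_reduce at h1
    rw [h.Le1] at h1
    have h2 := congrArg (fun p : Perm Q => p x) h1
    simp only [Perm.mul_apply, inv_one, Perm.one_apply] at h2
    have h3 : (L x)⁻¹ x = e := by rw [Perm.inv_eq_iff_eq, h.Le]
    rw [h3, h.Je, h.Le] at h2
    simpa using h2.symm

/-- a nontrivial subgroup normalised by `G` is transitive -/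
theorem trans (h : AL G L J e) {M : Subgroup (Perm Q)} (hM : Nm G M) (hne : M ≠ ⊥) (x y : Q) :
    ∃ m ∈ M, m x = y := by
  have key := h.prim (fun a b => ∃ m ∈ M, m a = b)
    ⟨fun a => ⟨1, M.one_mem, rfl⟩,
      fun {a b} ⟨m, hm, hab⟩ => ⟨m⁻¹, M.inv_mem hm, by rw [Perm.inv_eq_iff_eq]; exact hab.symm⟩,
      fun {a b c} ⟨m, hm, hab⟩ ⟨n, hn, hbc⟩ => ⟨n * m, M.mul_mem hn hm, by
        rw [Perm.mul_apply, hab, hbc]⟩⟩
    (by
      rintro g hg a b ⟨m, hm, hab⟩
      refine ⟨g * m * g⁻¹, hM g hg m hm, ?_⟩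
      simp [hab])
  rcases key with hk | hk
  · exfalso
    apply hne
    rw [Subgroup.eq_bot_iff_forall]
    intro m hm
    ext a
    simpa using (hk a (m a) ⟨m, hm, rfl⟩).symm
  · exact hk x y

/-- a nontrivial subgroup `S` of the group of inner mappings that is normalised by all inner
mappings has normaliser fixing `e` -/
theorem norm_fix (h : AL G L J e) {S : Subgroup (Perm Q)}
    (hSe : ∀ s ∈ S, s e = e) (hSn : ∀ g ∈ G, g e = e → ∀ s ∈ S, g * s * g⁻¹ ∈ S) (hne : S ≠ ⊥)
    {g : Perm Q} (hg : g ∈ G) (hn : ∀ s, s ∈ S ↔ g * s * g⁻¹ ∈ S) : g e = e := by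
  -- `f a` = the conjugate of `S` at `a`, as a set
  have hiff : ∀ k ∈ G, k e = e → ∀ s, s ∈ S ↔ k⁻¹ * s * k ∈ S := by
    intro k hk hke s
    constructor
    · intro hs
      have := hSn k⁻¹ (G.inv_mem hk) (by rw [Perm.inv_eq_iff_eq]; exact hke.symm) s hs
      simpa using this
    · intro hs
      have := hSn k hk hke _ hs
      have e1 : k * (k⁻¹ * s * k) * k⁻¹ = s := by group
      rwa [e1] at this
  have hset : ∀ k ∈ G, ∀ s, (L (k e))⁻¹ * s * L (k e) ∈ S ↔ k⁻¹ * s * k ∈ S := by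
    intro k hk s
    have hv := h.fix_part hk
    rw [hiff _ hv.1 hv.2 ((L (k e))⁻¹ * s * L (k e))]
    have e1 : ((L (k e))⁻¹ * k)⁻¹ * ((L (k e))⁻¹ * s * L (k e)) * ((L (k e))⁻¹ * k) =
        k⁻¹ * s * k := by group
    rw [e1]
  have key := h.prim_map (fun a => {s : Perm Q | (L a)⁻¹ * s * L a ∈ S}) (by
    intro k hk a b hab
    simp only [Set.ext_iff, Set.mem_ofPred_eq] at hab ⊢
    intro s
    have h1 : ∀ c : Q, (L (k c))⁻¹ * s * L (k c) ∈ S ↔ (L c)⁻¹ * (k⁻¹ * s * k) * L c ∈ S := by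
      intro c
      have h2 := hset (k * L c) (G.mul_mem hk (h.memL c)) s
      rw [Perm.mul_apply, h.Le] at h2
      rw [h2]
      have e1 : (k * L c)⁻¹ * s * (k * L c) = (L c)⁻¹ * (k⁻¹ * s * k) * L c := by group
      rw [e1]
    rw [h1 a, h1 b]
    exact hab _)
  rcases key with hk | hk
  · apply hk
    simp only [Set.ext_iff, Set.mem_ofPred_eq]
    intro s
    rw [hset g hg s, h.Le1]
    have := hn (g⁻¹ * s * g)
    rw [this]
    have e1 : g * (g⁻¹ * s * g) * g⁻¹ = s := by group
    rw [e1]; simp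
  · exfalso
    apply hne
    rw [Subgroup.eq_bot_iff_forall]
    intro s hs
    ext a
    have h1 := hk a e
    simp only [Set.ext_iff, Set.mem_ofPred_eq] at h1
    have h2 := (h1 s).2 (by rw [h.Le1]; simpa using hs)
    have h3 := hSe _ h2
    simp only [Perm.mul_apply] at h3
    rw [Perm.inv_eq_iff_eq, h.Le] at h3
    simpa using h3

/-- commuting of normal subgroups with trivial intersection -/
theorem _root_.ALoop.comm_of_inf {M M' : Subgroup (Perm Q)} (h1 : Nm M' M) (h2 : Nm M M')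
    (hinf : ∀ x, x ∈ M → x ∈ M' → x = 1) {a b : Perm Q} (ha : a ∈ M) (hb : b ∈ M') :
    a * b = b * a := by
  have e1 : a * b * a⁻¹ * b⁻¹ ∈ M' := M'.mul_mem (h2 a ha b hb) (M'.inv_mem hb)
  have e2 : a * b * a⁻¹ * b⁻¹ ∈ M := by
    have := h1 b hb a⁻¹ (M.inv_mem ha)
    have := M.mul_mem ha this
    have e3 : a * (b * a⁻¹ * b⁻¹) = a * b * a⁻¹ * b⁻¹ := by group
    rwa [e3] at this
  have e3 := hinf _ e2 e1
  have e4 : a * b = (a * b * a⁻¹ * b⁻¹) * (b * a) := by group
  rw [e4, e3, one_mul]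

end AL

end ALoop
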