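import Pool.Agent.H4.Loop.Prim

set_option autoImplicit false

/-!
A regular normal subgroup of `G` (abelian or not) forces the loop to be a group.
-/

namespace ALoop

open Equiv

variable {Q : Type*} {G : Subgroup (Perm Q)} {L : Q → Perm Q} {J : Perm Q} {e : Q}
  {N : Subgroup (Perm Q)}

/-- the loop operation transported to `N` -/
def op (L : Q → Perm Q) (e : Q) (x y : Perm Q) : Perm Q := L (x e) * y * (L (x e))⁻¹ * x

theorem op_mem (h : AL G L J e) (hN : Nm G N) {x y : Perm Q} (hx : x ∈ N) (hy : y ∈ N) :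
    op L e x y ∈ N := N.mul_mem (hN _ (h.memL _) y hy) hx

theorem op_e (h : AL G L J e) (x y : Perm Q) : (op L e x y) e = L (x e) (y e) := by
  have h1 : (L (x e))⁻¹ (x e) = e := by rw [Perm.inv_eq_iff_eq, h.Le]
  rw [op, Perm.mul_apply, Perm.mul_apply, Perm.mul_apply, h1]

theorem op_F1 (x y z : Perm Q) : op L e x (y * z) = op L e x y * x⁻¹ * op L e x z := by
  unfold op; group

theorem reg_eq (hreg : ∀ n ∈ N, n e = e → n = 1) {a b : Perm Q} (ha : a ∈ N) (hb : b ∈ N)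
    (hab : a e = b e) : a = b := by
  have := hreg (b⁻¹ * a) (N.mul_mem (N.inv_mem hb) ha)
    (by rw [Perm.mul_apply, hab, Perm.inv_eq_iff_eq])
  exact (inv_mul_eq_one.1 this).symm

theorem op_eq (h : AL G L J e) (hN : Nm G N) (hreg : ∀ n ∈ N, n e = e → n = 1)
    {x y : Perm Q} (hx : x ∈ N) (hy : y ∈ N) :
    op L e x y = (J * L (J (y e)) * J) * x * (J * L (J (y e)) * J)⁻¹ * y := by
  apply reg_eq hreg (op_mem h hN hx hy) (N.mul_mem (hN _ (h.memR _) x hx) hy)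
  rw [op_e h]
  have h1 : (J * L (J (y e)) * J) e = y e := by rw [h.R_apply, h.Le1, Perm.one_apply]
  have h2 := h.R_apply (x e) (y e)
  generalize J * L (J (y e)) * J = k at h1 h2
  have h3 : k⁻¹ (y e) = e := by rw [Perm.inv_eq_iff_eq, h1]
  rw [Perm.mul_apply, Perm.mul_apply, Perm.mul_apply, h3, h2]

theorem op_F2 (h : AL G L J e) (hN : Nm G N) (hreg : ∀ n ∈ N, n e = e → n = 1)
    {x x' y : Perm Q} (hx : x ∈ N) (hx' : x' ∈ N) (hy : y ∈ N) :
    op L e (x * x') y = op L e x y * y⁻¹ * op L e x' y := by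
  rw [op_eq h hN hreg (N.mul_mem hx hx') hy, op_eq h hN hreg hx hy, op_eq h hN hreg hx' hy]
  group

theorem op_comm (h : AL G L J e) (hN : Nm G N) (hreg : ∀ n ∈ N, n e = e → n = 1)
    {x x' y z : Perm Q} (hx : x ∈ N) (hx' : x' ∈ N) (hy : y ∈ N) (hz : z ∈ N) :
    (x⁻¹ * op L e x z * z⁻¹) * (y⁻¹ * op L e x' y * x'⁻¹) =
      (y⁻¹ * op L e x' y * x'⁻¹) * (x⁻¹ * op L e x z * z⁻¹) := by
  have h1 : op L e (x * x') (y * z) = (op L e x y * x⁻¹ * op L e x z) * (y * z)⁻¹ *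
      (op L e x' y * x'⁻¹ * op L e x' z) := by
    rw [op_F2 h hN hreg hx hx' (N.mul_mem hy hz), op_F1, op_F1]
  have h2 : op L e (x * x') (y * z) = (op L e x y * y⁻¹ * op L e x' y) * (x * x')⁻¹ *
      (op L e x z * z⁻¹ * op L e x' z) := by
    rw [op_F1, op_F2 h hN hreg hx hx' hy, op_F2 h hN hreg hx hx' hz]
  rw [h1] at h2
  generalize op L e x y = a at h2
  generalize op L e x' z = b at h2
  generalize op L e x z = c at h2 ⊢
  generalize op L e x' y = d at h2 ⊢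
  have h3 : a⁻¹ * (a * x⁻¹ * c * (y * z)⁻¹ * (d * x'⁻¹ * b)) * b⁻¹ =
      a⁻¹ * (a * y⁻¹ * d * (x * x')⁻¹ * (c * z⁻¹ * b)) * b⁻¹ := by rw [h2]
  have h4 : a⁻¹ * (a * x⁻¹ * c * (y * z)⁻¹ * (d * x'⁻¹ * b)) * b⁻¹ =
      (x⁻¹ * c * z⁻¹) * (y⁻¹ * d * x'⁻¹) := by group
  have h5 : a⁻¹ * (a * y⁻¹ * d * (x * x')⁻¹ * (c * z⁻¹ * b)) * b⁻¹ =
      (y⁻¹ * d * x'⁻¹) * (x⁻¹ * c * z⁻¹) := by group
  rw [← h4, h3, h5]

theorem op_equi (h : AL G L J e) {u : Perm Q} (hu : u ∈ G) (hue : u e = e) (x y : Perm Q) :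
    u * op L e x y * u⁻¹ = op L e (u * x * u⁻¹) (u * y * u⁻¹) := by
  have h1 : (u * x * u⁻¹) e = u (x e) := by
    have : u⁻¹ e = e := by rw [Perm.inv_eq_iff_eq, hue]
    rw [Perm.mul_apply, Perm.mul_apply, this]
  unfold op
  rw [h1, ← h.equi u hu hue (x e)]
  group

/-- to be normalised by `G` it is enough to be normalised by `N` and by the inner mappings -/
theorem nm_split (h : AL G L J e) (hNG : N ≤ G) (hN : Nm G N) (hne : N ≠ ⊥)
    {M : Subgroup (Perm Q)} (h1 : Nm N M)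
    (h2 : ∀ u ∈ G, u e = e → ∀ m ∈ M, u * m * u⁻¹ ∈ M) : Nm G M := by
  intro g hg m hm
  obtain ⟨n, hn, hne'⟩ := h.trans hN hne e (g e)
  have h3 : n⁻¹ * g ∈ G := G.mul_mem (G.inv_mem (hNG hn)) hg
  have h4 : (n⁻¹ * g) e = e := by rw [Perm.mul_apply, Perm.inv_eq_iff_eq, hne']
  have h5 := h1 n hn _ (h2 _ h3 h4 m hm)
  have e1 : n * (n⁻¹ * g * m * (n⁻¹ * g)⁻¹) * n⁻¹ = g * m * g⁻¹ := by group
  rwa [e1] at h5

theorem closure_conj {S : Set (Perm Q)} {g : Perm Q}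
    (hS : ∀ c ∈ S, g * c * g⁻¹ ∈ Subgroup.closure S) :
    ∀ m ∈ Subgroup.closure S, g * m * g⁻¹ ∈ Subgroup.closure S := by
  intro m hm
  induction hm using Subgroup.closure_induction with
  | mem x hx => exact hS x hx
  | one => simpa using (Subgroup.closure S).one_mem
  | mul x y _ _ hx hy =>
    have e1 : g * (x * y) * g⁻¹ = (g * x * g⁻¹) * (g * y * g⁻¹) := by group
    rw [e1]; exact Subgroup.mul_mem _ hx hy
  | inv x _ hx =>
    have e1 : g * x⁻¹ * g⁻¹ = (g * x * g⁻¹)⁻¹ := by group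
    rw [e1]; exact Subgroup.inv_mem _ hx

/-- a nontrivial `G`-invariant subgroup of a regular `N` is all of `N` -/
theorem reg_le (h : AL G L J e) (hreg : ∀ n ∈ N, n e = e → n = 1) {M : Subgroup (Perm Q)}
    (hM : Nm G M) (hne : M ≠ ⊥) (hMN : M ≤ N) : N ≤ M := by
  intro n hn
  obtain ⟨m, hm, hme⟩ := h.trans hM hne e (n e)
  have := reg_eq hreg (hMN hm) hn hme
  rwa [← this]

theorem assoc_of_op (h : AL G L J e) (hN : Nm G N) (hne : N ≠ ⊥)
    (hop : ∀ x ∈ N, ∀ y ∈ N, op L e x y = x * y) : Assoc L := by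
  have key : ∀ x ∈ N, ∀ y ∈ N, L (x e) (y e) = (x * y) e := by
    intro x hx y hy
    rw [← op_e h, hop x hx y hy]
  intro a b c
  obtain ⟨x, hx, rfl⟩ := h.trans hN hne e a
  obtain ⟨y, hy, rfl⟩ := h.trans hN hne e b
  obtain ⟨z, hz, rfl⟩ := h.trans hN hne e c
  rw [key x hx y hy, key (x * y) (N.mul_mem hx hy) z hz, key y hy z hz,
    key x hx (y * z) (N.mul_mem hy hz), mul_assoc]

theorem assoc_of_op' (h : AL G L J e) (hN : Nm G N) (hne : N ≠ ⊥)
    (hop : ∀ x ∈ N, ∀ y ∈ N, op L e x y = y * x) : Assoc L := by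
  have key : ∀ x ∈ N, ∀ y ∈ N, L (x e) (y e) = (y * x) e := by
    intro x hx y hy
    rw [← op_e h, hop x hx y hy]
  intro a b c
  obtain ⟨x, hx, rfl⟩ := h.trans hN hne e a
  obtain ⟨y, hy, rfl⟩ := h.trans hN hne e b
  obtain ⟨z, hz, rfl⟩ := h.trans hN hne e c
  rw [key x hx y hy, key (y * x) (N.mul_mem hy hx) z hz, key y hy z hz,
    key x hx (z * y) (N.mul_mem hz hy), mul_assoc]

/-- the regular case, up to abelian normal subgroups -/
theorem regular_case (h : AL G L J e) (hNG : N ≤ G) (hN : Nm G N) (hne : N ≠ ⊥)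
    (hreg : ∀ n ∈ N, n e = e → n = 1) : Assoc L ∨ (∀ a ∈ N, ∀ b ∈ N, a * b = b * a) := by
  set SR : Set (Perm Q) := {c | ∃ x ∈ N, ∃ z ∈ N, c = x⁻¹ * op L e x z * z⁻¹} with hSR
  set SS : Set (Perm Q) := {c | ∃ x ∈ N, ∃ y ∈ N, c = y⁻¹ * op L e x y * x⁻¹} with hSS
  have hRN : Subgroup.closure SR ≤ N := by
    rw [Subgroup.closure_le]
    rintro c ⟨x, hx, z, hz, rfl⟩
    exact N.mul_mem (N.mul_mem (N.inv_mem hx) (op_mem h hN hx hz)) (N.inv_mem hz)
  have hSN : Subgroup.closure SS ≤ N := by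
    rw [Subgroup.closure_le]
    rintro c ⟨x, hx, y, hy, rfl⟩
    exact N.mul_mem (N.mul_mem (N.inv_mem hy) (op_mem h hN hx hy)) (N.inv_mem hx)
  have hRG : Nm G (Subgroup.closure SR) := by
    apply nm_split h hNG hN hne
    · intro n hn
      apply closure_conj
      rintro c ⟨x, hx, z, hz, rfl⟩
      have e1 : n * (x⁻¹ * op L e x z * z⁻¹) * n⁻¹ =
          (x⁻¹ * op L e x n * n⁻¹)⁻¹ * (x⁻¹ * op L e x (n * z) * (n * z)⁻¹) := by
        rw [op_F1 x n z]; group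
      rw [e1]
      exact Subgroup.mul_mem _ (Subgroup.inv_mem _ (Subgroup.subset_closure ⟨x, hx, n, hn, rfl⟩))
        (Subgroup.subset_closure ⟨x, hx, n * z, N.mul_mem hn hz, rfl⟩)
    · intro u hu hue
      apply closure_conj
      rintro c ⟨x, hx, z, hz, rfl⟩
      apply Subgroup.subset_closure
      refine ⟨u * x * u⁻¹, hN u hu x hx, u * z * u⁻¹, hN u hu z hz, ?_⟩
      rw [← op_equi h hu hue]; group
  have hSG : Nm G (Subgroup.closure SS) := by
    apply nm_split h hNG hN hne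
    · intro n hn
      apply closure_conj
      rintro c ⟨x, hx, y, hy, rfl⟩
      have e1 : n * (y⁻¹ * op L e x y * x⁻¹) * n⁻¹ =
          (y⁻¹ * op L e n y * n⁻¹)⁻¹ * (y⁻¹ * op L e (n * x) y * (n * x)⁻¹) := by
        rw [op_F2 h hN hreg hn hx hy]; group
      rw [e1]
      exact Subgroup.mul_mem _ (Subgroup.inv_mem _ (Subgroup.subset_closure ⟨n, hn, y, hy, rfl⟩))
        (Subgroup.subset_closure ⟨n * x, N.mul_mem hn hx, y, hy, rfl⟩)
    · intro u hu hue
      apply closure_conj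
      rintro c ⟨x, hx, y, hy, rfl⟩
      apply Subgroup.subset_closure
      refine ⟨u * x * u⁻¹, hN u hu x hx, u * y * u⁻¹, hN u hu y hy, ?_⟩
      rw [← op_equi h hu hue]; group
  by_cases hR : Subgroup.closure SR = ⊥
  · left
    apply assoc_of_op h hN hne
    intro x hx y hy
    have h1 : x⁻¹ * op L e x y * y⁻¹ ∈ Subgroup.closure SR :=
      Subgroup.subset_closure ⟨x, hx, y, hy, rfl⟩
    rw [hR, Subgroup.mem_bot] at h1
    calc op L e x y = x * (x⁻¹ * op L e x y * y⁻¹) * y := by group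
      _ = x * y := by rw [h1]; group
  by_cases hS : Subgroup.closure SS = ⊥
  · left
    apply assoc_of_op' h hN hne
    intro x hx y hy
    have h1 : y⁻¹ * op L e x y * x⁻¹ ∈ Subgroup.closure SS :=
      Subgroup.subset_closure ⟨x, hx, y, hy, rfl⟩
    rw [hS, Subgroup.mem_bot] at h1
    calc op L e x y = y * (y⁻¹ * op L e x y * x⁻¹) * x := by group
      _ = y * x := by rw [h1]; group
  right
  have h1 := reg_le h hreg hRG hR hRN
  have h2 := reg_le h hreg hSG hS hSN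
  have h3 : Subgroup.closure SR ≤ Subgroup.centralizer SS := by
    rw [Subgroup.closure_le]
    rintro c ⟨x, hx, z, hz, rfl⟩
    rw [SetLike.mem_coe, Subgroup.mem_centralizer_iff]
    rintro d ⟨x', hx', y, hy, rfl⟩
    exact (op_comm h hN hreg hx hx' hy hz).symm
  have h4 : Subgroup.closure SS ≤ Subgroup.centralizer (N : Set (Perm Q)) := by
    rw [Subgroup.closure_le]
    intro d hd
    rw [SetLike.mem_coe, Subgroup.mem_centralizer_iff]
    intro c hc
    have := h3 (h1 hc)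
    rw [Subgroup.mem_centralizer_iff] at this
    exact (this d hd).symm
  intro a ha b hb
  have := h4 (h2 hb)
  rw [Subgroup.mem_centralizer_iff] at this
  exact this a ha

end ALoop
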